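import Mathlib

/-!
More unknowns than equations: a system of polynomial equations without constant terms has a
non-zero solution over an algebraically closed field.
-/

set_option autoImplicit false

open MvPolynomial

namespace Pool.Agent.PGE

variable {k : Type*} [Field k]

/-- translation of the variables -/
noncomputable def trans {σ : Type*} (x : σ → k) : MvPolynomial σ k ≃+* MvPolynomial σ k :=
  RingEquiv.ofRingHom (aeval (fun i => X i + C (x i)) : MvPolynomial σ k →ₐ[k] MvPolynomial σ k).toRingHom
    (aeval (fun i => X i - C (x i)) : MvPolynomial σ k →ₐ[k] MvPolynomial σ k).toRingHom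
    (by
      apply MvPolynomial.ringHom_ext
      · intro c; simp
      · intro i; simp)
    (by
      apply MvPolynomial.ringHom_ext
      · intro c; simp
      · intro i; simp)

lemma trans_apply {σ : Type*} (x : σ → k) (p : MvPolynomial σ k) :
    trans x p = aeval (fun i => X i + C (x i)) p := rfl

lemma aeval_trans {σ : Type*} (x y : σ → k) (p : MvPolynomial σ k) :
    aeval y (trans x p) = aeval (fun i => y i + x i) p := by
  rw [trans_apply]
  induction p using MvPolynomial.induction_on with
  | C a => simp
  | add p q hp hq => simp only [map_add, hp, hq]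
  | mul_X p i hp =>
    rw [map_mul, map_mul, hp, map_mul, aeval_X, map_add, aeval_X, aeval_X, aeval_C]
    rfl

lemma height_origin [IsAlgClosed k] {σ : Type*} [Finite σ] :
    (Nat.card σ : ℕ∞) ≤ (vanishingIdeal k {(0 : σ → k)}).height := by
  by_contra hlt
  push Not at hlt
  have h1 : ringKrullDim (MvPolynomial σ k) = Nat.card σ := by
    rw [MvPolynomial.ringKrullDim_of_isNoetherianRing, ringKrullDim_eq_zero_of_field, zero_add]
  have h2 : ringKrullDim (MvPolynomial σ k) ≤
      (((vanishingIdeal k {(0 : σ → k)}).height : ℕ∞) : WithBot ℕ∞) := by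
    rw [ringKrullDim_le_iff_isMaximal_height_le]
    intro I hI
    obtain ⟨x, rfl⟩ := isMaximal_iff_eq_vanishingIdeal_singleton.1 hI
    rw [← RingEquiv.height_comap (trans (fun i => - x i))]
    refine le_of_eq ?_
    congr 2
    ext p
    rw [Ideal.mem_comap, mem_vanishingIdeal_singleton_iff, mem_vanishingIdeal_singleton_iff,
      aeval_trans]
    simp only [add_neg_cancel]
    rfl
  rw [h1] at h2
  have h3 : (Nat.card σ : ℕ∞) ≤ (vanishingIdeal k {(0 : σ → k)}).height := by exact_mod_cast h2
  exact absurd h3 (not_le.2 hlt)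

/-- **More unknowns than equations.** -/
theorem exists_nonzero_zero [IsAlgClosed k] {σ τ : Type*} [Finite σ] [Finite τ]
    (F : τ → MvPolynomial σ k) (hF : ∀ j, aeval (0 : σ → k) (F j) = 0)
    (h : Nat.card τ < Nat.card σ) : ∃ ξ : σ → k, ξ ≠ 0 ∧ ∀ j, aeval ξ (F j) = 0 := by
  classical
  have := Fintype.ofFinite τ
  by_contra hno
  push Not at hno
  let I : Ideal (MvPolynomial σ k) := Ideal.span (Set.range F)
  have hI0 : I ≤ vanishingIdeal k {(0 : σ → k)} := by
    rw [Ideal.span_le]
    rintro _ ⟨j, rfl⟩
    rw [SetLike.mem_coe, mem_vanishingIdeal_singleton_iff]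
    exact hF j
  have hmax : (vanishingIdeal k {(0 : σ → k)}).IsMaximal :=
    isMaximal_iff_eq_vanishingIdeal_singleton.2 ⟨0, rfl⟩
  have hprime : (vanishingIdeal k {(0 : σ → k)}).IsPrime := hmax.isPrime
  obtain ⟨P, hP, hPle⟩ := Ideal.exists_minimalPrimes_le hI0
  have hPp : P.IsPrime := hP.1.1
  have hIP : I ≤ P := hP.1.2
  have hz : zeroLocus k P = {(0 : σ → k)} := by
    apply Set.eq_singleton_iff_unique_mem.2
    constructor
    · intro p hp
      have := hPle hp
      rwa [mem_vanishingIdeal_singleton_iff] at this
    · intro x hx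
      by_contra hx0
      obtain ⟨j, hj⟩ := hno x hx0
      exact hj (hx _ (hIP (Ideal.subset_span ⟨j, rfl⟩)))
  have hPeq : P = vanishingIdeal k {(0 : σ → k)} := by
    rw [← hz]
    exact (IsPrime.vanishingIdeal_zeroLocus P).symm
  have h1 : (Nat.card σ : ℕ∞) ≤ P.height := by
    rw [hPeq]; exact height_origin
  have h2 : P.height ≤ (Finset.univ.image F).card := by
    apply Ideal.height_le_card_of_mem_minimalPrimes_span_finset
    rw [Finset.coe_image, Finset.coe_univ, Set.image_univ]
    exact hP
  have h3 : (Finset.univ.image F).card ≤ Nat.card τ := by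
    rw [Nat.card_eq_fintype_card]
    exact Finset.card_image_le
  have h4 : (Nat.card σ : ℕ∞) ≤ Nat.card τ := h1.trans (h2.trans (by exact_mod_cast h3))
  have h5 : Nat.card σ ≤ Nat.card τ := by exact_mod_cast h4
  omega

end Pool.Agent.PGE
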