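import Mathlib
import Pool.Agent.Helper1_PGH.Defs

/-!
MP_5b1cbc_ag, squad PGE: varieties which are covered by curves of genus at most one are not
pseudo-geometrically hyperbolic. Definitions and statements of the modules.
-/

set_option autoImplicit false

open CategoryTheory AlgebraicGeometry Polynomial

universe u

namespace Pool.Agent.PGE

/-- `A` is the coordinate ring of a smooth affine curve with function field `L`. -/
structure SmCurve (k : Type u) {L : Type u} [Field k] [Field L] [Algebra k L]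
    (A : Subalgebra k L) : Prop where
  ded : IsDedekindDomain A
  ft : Algebra.FiniteType k A
  frac : IsFractionRing A L
  smooth : Algebra.IsStandardSmoothOfRelativeDimension 1 k A

/-- `L` is a function field of one variable such that at a general place there are infinitely
many endomorphisms of the curve which fix the place. -/
def Good (k : Type u) (L : Type u) [Field k] [Field L] [Algebra k L] : Prop :=
  (∀ x : L, Transcendental k x → Algebra.IsAlgebraic (IntermediateField.adjoin k {x}) L) ∧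
  ∀ S : Finset L, ∃ (A : Subalgebra k L) (c : A →ₐ[k] k) (Φ : ℕ → (A →ₐ[k] L)),
    (∀ s ∈ S, s ∈ A) ∧ SmCurve k A ∧ Function.Injective Φ ∧ (∀ j, Function.Injective (Φ j)) ∧
    ∀ (j : ℕ) (a : A), ∃ p q : A, c q ≠ 0 ∧ Φ j a * (q : L) = (p : L) ∧ c p = c a * c q

/-- SMO -/
def SMOStmt : Prop := ∀ (k L : Type u) [Field k] [IsAlgClosed k] [CharZero k] [Field L]
  [Algebra k L] (v s : L) (Q D : k[X]), Transcendental k v → s ^ 2 = aeval v Q → Q ≠ 0 → D ≠ 0 →
  Q ∣ D → IntermediateField.adjoin k {v, s} = ⊤ →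
  SmCurve k (Algebra.adjoin k {v, s, (aeval v D)⁻¹})

/-- RAT -/
def RATStmt : Prop := ∀ (k L : Type u) [Field k] [IsAlgClosed k] [CharZero k] [Field L]
  [Algebra k L] (v : L), Transcendental k v → IntermediateField.adjoin k {v} = ⊤ → Good k L

/-- ELL -/
def ELLStmt : Prop := ∀ (k L : Type u) [Field k] [IsAlgClosed k] [CharZero k] [Field L]
  [Algebra k L] (v s : L) (a b : k), Transcendental k v →
  s ^ 2 = v ^ 3 + algebraMap k L a * v + algebraMap k L b →
  IntermediateField.adjoin k {v, s} = ⊤ → Good k L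

/-- QUA -/
def QUAStmt : Prop := ∀ (k L : Type u) [Field k] [IsAlgClosed k] [CharZero k] [Field L]
  [Algebra k L] (v s : L) (Q : k[X]), Transcendental k v → s ^ 2 = aeval v Q → Q ≠ 0 →
  Q.natDegree ≤ 4 → IntermediateField.adjoin k {v, s} = ⊤ → Good k L

/-- The power series `1 + b t`. -/
noncomputable def lin {k : Type u} [Field k] (b : k) : PowerSeries k :=
  1 + PowerSeries.C b * PowerSeries.X

/-- FLD: the Kummer fields of orbifold type `(3,3,3)`, `(4,4,2)`, `(2,2,2,2)` (twice) and the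
rational ones. -/
def FLDStmt : Prop := ∀ (k : Type u) [Field k] [IsAlgClosed k] [CharZero k],
  (∀ b₁ b₂ b₃ : k, ∃ (L : IntermediateField k (LaurentSeries k)) (U : PowerSeries k),
    ((PowerSeries.X : PowerSeries k) : LaurentSeries k) ∈ L ∧ (U : LaurentSeries k) ∈ L ∧
    PowerSeries.constantCoeff U = 1 ∧ U ^ 3 = lin b₁ * lin b₂ * lin b₃ ∧ Good k L) ∧
  (∀ b₁ b₂ b₃ : k, ∃ (L : IntermediateField k (LaurentSeries k)) (U : PowerSeries k),
    ((PowerSeries.X : PowerSeries k) : LaurentSeries k) ∈ L ∧ (U : LaurentSeries k) ∈ L ∧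
    PowerSeries.constantCoeff U = 1 ∧ U ^ 4 = lin b₁ * lin b₂ * lin b₃ ^ 2 ∧ Good k L) ∧
  (∀ b₁ b₂ b₃ b₄ : k, ∃ (L : IntermediateField k (LaurentSeries k)) (U : PowerSeries k),
    ((PowerSeries.X : PowerSeries k) : LaurentSeries k) ∈ L ∧ (U : LaurentSeries k) ∈ L ∧
    PowerSeries.constantCoeff U = 1 ∧ U ^ 2 = lin b₁ * lin b₂ * lin b₃ * lin b₄ ∧ Good k L) ∧
  (∀ b₁ b₂ b₃ b₄ : k, ∃ (L : IntermediateField k (LaurentSeries k)) (U V : PowerSeries k),
    ((PowerSeries.X : PowerSeries k) : LaurentSeries k) ∈ L ∧ (U : LaurentSeries k) ∈ L ∧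
    (V : LaurentSeries k) ∈ L ∧ PowerSeries.constantCoeff U = 1 ∧
    PowerSeries.constantCoeff V = 1 ∧ U ^ 2 = lin b₁ * lin b₂ ∧ V ^ 2 = lin b₃ * lin b₄ ∧
    Good k L) ∧
  (∀ (m : ℕ) (b₁ b₂ : k), m ≠ 0 → ∃ (L : IntermediateField k (LaurentSeries k))
    (U : PowerSeries k),
    ((PowerSeries.X : PowerSeries k) : LaurentSeries k) ∈ L ∧ (U : LaurentSeries k) ∈ L ∧
    PowerSeries.constantCoeff U = 1 ∧ U ^ m = lin b₁ * lin b₂ ^ (m - 1) ∧ Good k L)

/-- MINP: a morphism through a general point stays in the component. -/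
def MINPStmt : Prop := ∀ (k σ : Type u) [Field k] [Finite σ] (I P : Ideal (MvPolynomial σ k)),
  P ∈ I.minimalPrimes → ∃ q : MvPolynomial σ k, q ∉ P ∧
    ∀ (B : Type u) [CommRing B] [IsDomain B] (ψ : MvPolynomial σ k →+* B),
      (∀ p ∈ I, ψ p = 0) → ψ q ≠ 0 → ∀ p ∈ P, ψ p = 0

/-- EXT: a rational map from a smooth affine curve to a proper scheme is a morphism. -/
def EXTStmt : Prop := ∀ (k : Type u) [Field k] (X : Scheme.{u}) (f : X ⟶ Spec (.of k))
  [IsProper f] (L : Type u) [Field L] [Algebra k L] (A : Subalgebra k L) [IsDedekindDomain A]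
  [Algebra.FiniteType k A] [IsFractionRing A L] (φ : Spec (.of L) ⟶ X),
  φ ≫ f = Spec.map (CommRingCat.ofHom (algebraMap k L)) →
  ∃ h : Spec (.of A) ⟶ X, h ≫ f = Spec.map (CommRingCat.ofHom (algebraMap k A)) ∧
    Spec.map (CommRingCat.ofHom (algebraMap A L)) ≫ h = φ

/-- COV: the criterion. -/
def COVStmt : Prop := ∀ (k : Type u) [Field k] [IsAlgClosed k] [CharZero k] (X : Scheme.{u})
  (f : X ⟶ Spec (.of k)) [IsIntegral X] [IsProper f],
  (∀ Z : Set X, IsClosed Z → Z ≠ Set.univ → ∃ (U : X.Opens) (_ : IsAffineOpen U),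
    (U : Set X).Nonempty ∧ Disjoint (U : Set X) Z ∧ ∃ (L : Type u) (_ : Field L)
      (_ : Algebra k L), Good k L ∧ ∃ Ψ : Γ(X, U) →+* L,
        (∀ c : k, Ψ ((X.presheaf.map (homOfLE le_top).op).hom
          (((Scheme.ΓSpecIso (.of k)).inv ≫ f.appTop).hom c)) = algebraMap k L c) ∧
        ∃ a, Transcendental k (Ψ a)) → ¬ PGH.IsPGH k f

/-- MAIN: the theorem. `X` is birational to an irreducible component, on which no `y i` vanishes,
of the affine scheme `h j (x) = 0`, `(y i) ^ (m i) = g i (x)`. -/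
def MAINStmt : Prop := ∀ (k : Type u) [Field k] [IsAlgClosed k] [CharZero k] (X : Scheme.{u})
  (f : X ⟶ Spec (.of k)) [IsIntegral X] [IsProper f] (σ ι τ : Type u) [Fintype σ] [Fintype ι]
  [Fintype τ] (w : σ → ℕ) (m a : ι → ℕ) (d : τ → ℕ) (g : ι → MvPolynomial σ k)
  (h : τ → MvPolynomial σ k) (x : σ → X.functionField) (y : ι → X.functionField),
  (∀ i, MvPolynomial.weightedTotalDegree w (g i) ≤ m i * a i) →
  (∀ j, MvPolynomial.weightedTotalDegree w (h j) ≤ d j) →
  (∀ i, 2 ≤ m i ∧ 1 ≤ a i) →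
  Subfield.closure (Set.range (PGH.constants k f) ∪ Set.range x ∪ Set.range y) = ⊤ →
  (∀ i, y i ≠ 0) →
  RingHom.ker (MvPolynomial.eval₂Hom (PGH.constants k f) (Sum.elim x y)) ∈
    (Ideal.span (Set.range (fun j => MvPolynomial.rename (Sum.inl : σ → σ ⊕ ι) (h j)) ∪
      Set.range (fun i => MvPolynomial.X (Sum.inr i) ^ m i -
        MvPolynomial.rename (Sum.inl : σ → σ ⊕ ι) (g i)))).minimalPrimes →
  ((∑ i, m i * a i + ∑ j, d j ≤ 1 + ∑ l, w l + ∑ i, a i ∧
      ((∃ i, 3 ∣ m i ∨ 4 ∣ m i ∨ (2 ∣ m i ∧ 2 ≤ a i)) ∨ ∃ i i', i ≠ i' ∧ 2 ∣ m i ∧ 2 ∣ m i')) ∨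
    (∑ i, m i * a i + ∑ j, d j ≤ ∑ l, w l + ∑ i, a i ∧ Nonempty ι)) →
  ¬ PGH.IsPGH k f

end Pool.Agent.PGE
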