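import Pool.Agent.Helper45_PGE.MainH
import Pool.Agent.Helper87_PGE.Smo
import Pool.Agent.Helper87_PGE.Ext
import Pool.Agent.Helper63_PGE.Rat
import Pool.Agent.Helper65_PGE.Qua
import Pool.Agent.Helper67_PGE.Ell
import Pool.Agent.Helper69_PGE.Cov
import Pool.Agent.Helper69_PGE.Fld

set_option autoImplicit false

universe u v₁ v₂ v₃ v₄

namespace Pool.Agent.PGE

theorem fldAll : FLDStmt.{u} :=
  H69.fld (H63.rat H87.smo) (H65.qua (H63.rat H87.smo) (H67.ell H87.smo))

theorem covAll : COVStmt.{u} := H69.cov H87.ext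

theorem allH : MAINHStmt.{u, v₁, v₂, v₃, v₄} := mainH fldAll covAll

end Pool.Agent.PGE
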