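import Pool.Agent.Helper45_PGE.Krull

/-!
Module ARC: through every point of a cyclic cover of a complete intersection there is an arc with
prescribed contact with the branch divisors.
-/

set_option autoImplicit false

open Polynomial

namespace Pool.Agent.PGE

section univ

variable {k : Type*} [Field k] {σ ι : Type*} {R : Type*} [CommRing R] [Algebra k R]

/-- polynomial with constant term `a` and coefficients `ξ` -/
noncomputable def arcP (a : R) (n : ℕ) (ξ : Fin n → R) : R[X] :=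
  C a + ∑ q : Fin n, C (ξ q) * X ^ (q.1 + 1)

lemma arcP_natDegree (a : R) (n : ℕ) (ξ : Fin n → R) : (arcP a n ξ).natDegree ≤ n := by
  unfold arcP
  refine (natDegree_add_le _ _).trans (max_le (by simp) ?_)
  refine natDegree_sum_le_of_forall_le _ _ fun q _ => ?_
  exact (natDegree_C_mul_X_pow_le _ _).trans q.2

lemma arcP_coeff_zero (a : R) (n : ℕ) (ξ : Fin n → R) : (arcP a n ξ).coeff 0 = a := by
  unfold arcP
  rw [coeff_add, coeff_C_zero, finsetSum_coeff]
  rw [Finset.sum_eq_zero, add_zero]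
  intro q _
  rw [coeff_C_mul, coeff_X_pow, if_neg (by omega), mul_zero]

lemma arcP_coeff (a : R) (n : ℕ) (ξ : Fin n → R) (q : Fin n) :
    (arcP a n ξ).coeff (q.1 + 1) = ξ q := by
  unfold arcP
  rw [coeff_add, coeff_C_succ, zero_add, finsetSum_coeff, Finset.sum_eq_single q]
  · rw [coeff_C_mul, coeff_X_pow, if_pos rfl, mul_one]
  · intro b _ hb
    rw [coeff_C_mul, coeff_X_pow, if_neg, mul_zero]
    intro h
    exact hb (Fin.ext (by omega))
  · intro h
    exact absurd (Finset.mem_univ q) h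

lemma arcP_map {S : Type*} [CommRing S] (φ : R →+* S) (a : R) (n : ℕ) (ξ : Fin n → R) :
    (arcP a n ξ).map φ = arcP (φ a) n fun q => φ (ξ q) := by
  unfold arcP
  rw [Polynomial.map_add, map_C, Polynomial.map_sum]
  simp only [Polynomial.map_mul, map_C, Polynomial.map_pow, map_X]

lemma arcP_zero (a : R) (n : ℕ) : arcP a n (fun _ => 0) = C a := by
  unfold arcP
  simp

/-- degrees -/
lemma natDegree_aeval_le {k : Type*} [CommRing k] [Algebra k R] (w : σ → ℕ)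
    (p : MvPolynomial σ k) (x : σ → R[X]) (hx : ∀ l, (x l).natDegree ≤ w l) :
    (MvPolynomial.aeval x p).natDegree ≤ MvPolynomial.weightedTotalDegree w p := by
  classical
  rw [MvPolynomial.aeval_def, MvPolynomial.eval₂_eq]
  refine natDegree_sum_le_of_forall_le _ _ fun d hd => ?_
  refine (natDegree_mul_le).trans ?_
  have h1 : (algebraMap k R[X] (MvPolynomial.coeff d p)).natDegree = 0 := by
    rw [Polynomial.algebraMap_apply]
    exact natDegree_C _
  rw [h1, zero_add]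
  refine (natDegree_prod_le _ _).trans ?_
  refine le_trans ?_ (MvPolynomial.le_weightedTotalDegree w hd)
  rw [Finsupp.weight_apply, Finsupp.sum]
  refine Finset.sum_le_sum fun l _ => ?_
  refine natDegree_pow_le.trans ?_
  rw [smul_eq_mul]
  exact Nat.mul_le_mul_left _ (hx l)

lemma aeval_map {k : Type*} [CommRing k] [Algebra k R] {S : Type*} [CommRing S] [Algebra k S]
    (φ : R →ₐ[k] S) (p : MvPolynomial σ k) (x : σ → R[X]) :
    (MvPolynomial.aeval x p).map (φ : R →+* S) =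
      MvPolynomial.aeval (fun l => (x l).map (φ : R →+* S)) p := by
  have h : (Polynomial.mapAlgHom φ).comp (MvPolynomial.aeval x) =
      MvPolynomial.aeval (fun l => (x l).map (φ : R →+* S)) := by
    apply MvPolynomial.algHom_ext
    intro l
    simp
  exact DFunLike.congr_fun h p

end univ

section eqs

variable {k : Type*} [Field k] {σ ι τ : Type*} {R S : Type*} [CommRing R] [Algebra k R]
  [CommRing S] [Algebra k S]

/-- the arc -/
noncomputable def xP (w : σ → ℕ) (x₀ : σ → k) (ξ : (Σ l : σ, Fin (w l)) → R) (l : σ) : R[X] :=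
  arcP (algebraMap k R (x₀ l)) (w l) fun q => ξ ⟨l, q⟩

/-- the equation of index `i` -/
noncomputable def eqG (w : σ → ℕ) (x₀ : σ → k) (b e : ι → ℕ) (m : ι → ℕ)
    (c : ∀ i, Fin (e i) → ℕ) (g : ι → MvPolynomial σ k)
    (ξ : ((Σ l : σ, Fin (w l)) ⊕ ((Σ i : ι, Fin (b i)) ⊕ (Σ i : ι, Fin (e i)))) → R) (i : ι) :
    R[X] :=
  MvPolynomial.aeval (xP w x₀ fun q => ξ (Sum.inl q)) (g i) -
    C (algebraMap k R (MvPolynomial.eval x₀ (g i))) *
      (arcP 1 (b i) fun q => ξ (Sum.inr (Sum.inl ⟨i, q⟩))) ^ m i *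
      ∏ q, (1 + C (ξ (Sum.inr (Sum.inr ⟨i, q⟩))) * X) ^ c i q

/-- the equation of index `j` -/
noncomputable def eqH (w : σ → ℕ) (x₀ : σ → k) (h : τ → MvPolynomial σ k)
    (ξ : (Σ l : σ, Fin (w l)) → R) (j : τ) : R[X] :=
  MvPolynomial.aeval (xP w x₀ ξ) (h j)

lemma xP_map (φ : R →ₐ[k] S) (w : σ → ℕ) (x₀ : σ → k) (ξ : (Σ l : σ, Fin (w l)) → R) (l : σ) :
    (xP w x₀ ξ l).map (φ : R →+* S) = xP w x₀ (fun q => φ (ξ q)) l := by
  unfold xP
  rw [arcP_map]
  simp only [RingHom.coe_coe, AlgHom.commutes]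

lemma eqG_map (φ : R →ₐ[k] S) (w : σ → ℕ) (x₀ : σ → k) (b e : ι → ℕ) (m : ι → ℕ)
    (c : ∀ i, Fin (e i) → ℕ) (g : ι → MvPolynomial σ k)
    (ξ : ((Σ l : σ, Fin (w l)) ⊕ ((Σ i : ι, Fin (b i)) ⊕ (Σ i : ι, Fin (e i)))) → R) (i : ι) :
    (eqG w x₀ b e m c g ξ i).map (φ : R →+* S) = eqG w x₀ b e m c g (fun q => φ (ξ q)) i := by
  unfold eqG
  rw [Polynomial.map_sub, aeval_map, Polynomial.map_mul, Polynomial.map_mul, Polynomial.map_pow,
    arcP_map, map_C, Polynomial.map_prod]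
  simp only [xP_map, RingHom.coe_coe, AlgHom.commutes, map_one, Polynomial.map_pow,
    Polynomial.map_add, Polynomial.map_mul, map_C, map_X, Polynomial.map_one]

lemma eqH_map (φ : R →ₐ[k] S) (w : σ → ℕ) (x₀ : σ → k) (h : τ → MvPolynomial σ k)
    (ξ : (Σ l : σ, Fin (w l)) → R) (j : τ) :
    (eqH w x₀ h ξ j).map (φ : R →+* S) = eqH w x₀ h (fun q => φ (ξ q)) j := by
  unfold eqH
  rw [aeval_map]
  simp only [xP_map]

lemma aeval_C' (x₀ : σ → k) (p : MvPolynomial σ k) :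
    MvPolynomial.aeval (fun l => (C (x₀ l) : k[X])) p = C (MvPolynomial.eval x₀ p) := by
  have h : (MvPolynomial.aeval (fun l => (C (x₀ l) : k[X])) : MvPolynomial σ k →ₐ[k] k[X]) =
      (Polynomial.CAlgHom (R := k)).comp (MvPolynomial.aeval x₀) := by
    apply MvPolynomial.algHom_ext
    intro l
    simp [Polynomial.CAlgHom]
  rw [h]
  rfl

lemma coeff_zero_aeval (x : σ → k[X]) (p : MvPolynomial σ k) :
    (MvPolynomial.aeval x p).coeff 0 = MvPolynomial.eval (fun l => (x l).coeff 0) p := by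
  have h : (Polynomial.aeval (0 : k)).comp (MvPolynomial.aeval x : MvPolynomial σ k →ₐ[k] k[X]) =
      (MvPolynomial.aeval (fun l => (x l).coeff 0) : MvPolynomial σ k →ₐ[k] k) := by
    apply MvPolynomial.algHom_ext
    intro l
    simp [Polynomial.coeff_zero_eq_eval_zero]
  have h1 := DFunLike.congr_fun h p
  rw [AlgHom.comp_apply] at h1
  rw [Polynomial.coeff_zero_eq_eval_zero]
  rw [Polynomial.coe_aeval_eq_eval] at h1
  exact h1

end eqs

section main

variable {k : Type*} [Field k] [IsAlgClosed k] {σ ι τ : Type*} [Fintype σ] [Fintype ι] [Fintype τ]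

/-- arcs with prescribed contact, with additional equations `G` -/
theorem arcG (w : σ → ℕ) (m a b e : ι → ℕ) (c : ∀ i, Fin (e i) → ℕ) (d : τ → ℕ)
    (g : ι → MvPolynomial σ k) (h : τ → MvPolynomial σ k)
    (hg : ∀ i, MvPolynomial.weightedTotalDegree w (g i) ≤ m i * a i)
    (hh : ∀ j, MvPolynomial.weightedTotalDegree w (h j) ≤ d j)
    (hb : ∀ i, m i * b i + ∑ q, c i q = m i * a i) (hm : ∀ i, m i ≠ 0) (hc : ∀ i q, c i q ≠ 0)
    {T' : Type*} [Fintype T'] (G : T' → MvPolynomial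
      ((Σ l : σ, Fin (w l)) ⊕ ((Σ i : ι, Fin (b i)) ⊕ (Σ i : ι, Fin (e i)))) k)
    (hGz : ∀ t, MvPolynomial.aeval (fun _ => (0 : k)) (G t) = 0)
    (hnum : ∑ i, m i * a i + ∑ j, d j + Fintype.card T' < ∑ l, w l + ∑ i, (b i + e i))
    (x₀ : σ → k) (hx : ∀ j, MvPolynomial.eval x₀ (h j) = 0)
    (hy : ∀ i, MvPolynomial.eval x₀ (g i) ≠ 0) :
    ∃ (ξ : ((Σ l : σ, Fin (w l)) ⊕ ((Σ i : ι, Fin (b i)) ⊕ (Σ i : ι, Fin (e i)))) → k)
      (z : ι → k[X]) (β : ∀ i, Fin (e i) → k),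
      (∀ t, MvPolynomial.aeval ξ (G t) = 0) ∧
      (∀ l, (xP w x₀ (fun q => ξ (Sum.inl q)) l).coeff 0 = x₀ l) ∧ (∀ i, (z i).coeff 0 = 1) ∧
      (∀ j, MvPolynomial.aeval (xP w x₀ (fun q => ξ (Sum.inl q))) (h j) = 0) ∧
      (∀ i, MvPolynomial.aeval (xP w x₀ (fun q => ξ (Sum.inl q))) (g i) =
        C (MvPolynomial.eval x₀ (g i)) * z i ^ m i * ∏ q, (1 + C (β i q) * X) ^ c i q) ∧
      ∃ l, xP w x₀ (fun q => ξ (Sum.inl q)) l ≠ C (x₀ l) := by
  classical
  let Ξ := (Σ l : σ, Fin (w l)) ⊕ ((Σ i : ι, Fin (b i)) ⊕ (Σ i : ι, Fin (e i)))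
  let T := (Σ i : ι, Fin (m i * a i)) ⊕ (Σ j : τ, Fin (d j)) ⊕ T'
  let ξ₀ : Ξ → MvPolynomial Ξ k := MvPolynomial.X
  let F : T → MvPolynomial Ξ k := Sum.elim
    (fun q => (eqG w x₀ b e m c g ξ₀ q.1).coeff (q.2.1 + 1))
    (Sum.elim (fun q => (eqH w x₀ h (fun q => ξ₀ (Sum.inl q)) q.1).coeff (q.2.1 + 1)) G)
  have hFG : ∀ (ξ : Ξ → k) (q : Σ i : ι, Fin (m i * a i)),
      MvPolynomial.aeval ξ (F (Sum.inl q)) = (eqG w x₀ b e m c g ξ q.1).coeff (q.2.1 + 1) := by
    intro ξ q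
    have h1 := eqG_map (MvPolynomial.aeval ξ : MvPolynomial Ξ k →ₐ[k] k) w x₀ b e m c g ξ₀ q.1
    have h2 : (fun q => (MvPolynomial.aeval ξ : MvPolynomial Ξ k →ₐ[k] k) (ξ₀ q)) = ξ := by
      funext q
      exact MvPolynomial.aeval_X _ _
    rw [h2] at h1
    rw [← h1, coeff_map]
    rfl
  have hFH : ∀ (ξ : Ξ → k) (q : Σ j : τ, Fin (d j)),
      MvPolynomial.aeval ξ (F (Sum.inr (Sum.inl q))) =
        (eqH w x₀ h (fun q => ξ (Sum.inl q)) q.1).coeff (q.2.1 + 1) := by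
    intro ξ q
    have h1 := eqH_map (MvPolynomial.aeval ξ : MvPolynomial Ξ k →ₐ[k] k) w x₀ h
      (fun q => ξ₀ (Sum.inl q)) q.1
    have h2 : (fun q => (MvPolynomial.aeval ξ : MvPolynomial Ξ k →ₐ[k] k) (ξ₀ (Sum.inl q))) =
        fun q => ξ (Sum.inl q) := by
      funext q
      exact MvPolynomial.aeval_X _ _
    rw [h2] at h1
    rw [← h1, coeff_map]
    rfl
  have hx0 : (xP w x₀ fun _ => (0 : k)) = fun l => C (x₀ l) := by
    funext l
    unfold xP
    exact arcP_zero _ _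
  -- the trivial solution
  have hF0 : ∀ q, MvPolynomial.aeval (0 : Ξ → k) (F q) = 0 := by
    rintro (q | q | q)
    · rw [hFG]
      unfold eqG
      have h1 : (xP w x₀ fun q => (0 : Ξ → k) (Sum.inl q)) = fun l => C (x₀ l) := hx0
      rw [h1, aeval_C']
      simp only [Pi.zero_apply, arcP_zero, map_zero, zero_mul, add_zero, one_pow, Finset.prod_const_one,
        mul_one, map_one, Algebra.algebraMap_self, RingHom.id_apply, sub_self, coeff_zero]
    · rw [hFH]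
      unfold eqH
      have h1 : (xP w x₀ fun q => (0 : Ξ → k) (Sum.inl q)) = fun l => C (x₀ l) := hx0
      rw [h1, aeval_C', hx, map_zero, coeff_zero]
    · exact hGz q
  have hcard : Nat.card T < Nat.card Ξ := by
    simp only [Ξ, T, Nat.card_eq_fintype_card, Fintype.card_sum, Fintype.card_sigma, Fintype.card_fin]
    rw [Finset.sum_add_distrib] at hnum
    omega
  obtain ⟨ξ, hξ0, hξ⟩ := exists_nonzero_zero F hF0 hcard
  have hxc : ∀ l, (xP w x₀ (fun q => ξ (Sum.inl q)) l).coeff 0 = x₀ l := by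
    intro l
    unfold xP
    rw [arcP_coeff_zero]
    rfl
  have hxd : ∀ l, (xP w x₀ (fun q => ξ (Sum.inl q)) l).natDegree ≤ w l := fun l =>
    arcP_natDegree _ _ _
  have hG0 : ∀ i, eqG w x₀ b e m c g ξ i = 0 := by
    intro i
    ext n
    rw [coeff_zero]
    rcases Nat.eq_zero_or_pos n with rfl | hn
    · unfold eqG
      rw [coeff_sub, coeff_zero_aeval]
      simp only [hxc]
      rw [coeff_zero_eq_eval_zero, eval_mul, eval_mul, eval_pow, eval_prod, eval_C,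
        ← coeff_zero_eq_eval_zero, arcP_coeff_zero]
      simp only [eval_pow, eval_add, eval_one, eval_mul, eval_C, eval_X, mul_zero, add_zero, one_pow,
        Finset.prod_const_one, mul_one, Algebra.algebraMap_self, RingHom.id_apply, sub_self]
    · obtain ⟨q, rfl⟩ : ∃ q, n = q + 1 := ⟨n - 1, by omega⟩
      by_cases hq : q < m i * a i
      · have h1 := hξ (Sum.inl ⟨i, ⟨q, hq⟩⟩)
        rw [hFG] at h1
        exact h1
      · apply coeff_eq_zero_of_natDegree_lt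
        refine lt_of_le_of_lt ?_ (show m i * a i < q + 1 by omega)
        unfold eqG
        refine (natDegree_sub_le _ _).trans (max_le ((natDegree_aeval_le w _ _ hxd).trans (hg i)) ?_)
        rw [← hb i]
        refine natDegree_mul_le.trans (Nat.add_le_add (natDegree_mul_le.trans ?_) ?_)
        · rw [natDegree_C, zero_add]
          exact natDegree_pow_le.trans (Nat.mul_le_mul_left _ (arcP_natDegree _ _ _))
        · refine (natDegree_prod_le _ _).trans (Finset.sum_le_sum fun q _ => ?_)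
          refine natDegree_pow_le.trans ?_
          have : (1 + C (ξ (Sum.inr (Sum.inr ⟨i, q⟩))) * X : k[X]).natDegree ≤ 1 := by
            refine (natDegree_add_le _ _).trans (max_le (by simp) ?_)
            exact (natDegree_C_mul_le _ _).trans natDegree_X_le
          calc c i q * _ ≤ c i q * 1 := Nat.mul_le_mul_left _ this
            _ = c i q := mul_one _
  have hH0 : ∀ j, eqH w x₀ h (fun q => ξ (Sum.inl q)) j = 0 := by
    intro j
    ext n
    rw [coeff_zero]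
    rcases Nat.eq_zero_or_pos n with rfl | hn
    · unfold eqH
      rw [coeff_zero_aeval]
      simp only [hxc]
      exact hx j
    · obtain ⟨q, rfl⟩ : ∃ q, n = q + 1 := ⟨n - 1, by omega⟩
      by_cases hq : q < d j
      · have h1 := hξ (Sum.inr (Sum.inl ⟨j, ⟨q, hq⟩⟩))
        rw [hFH] at h1
        exact h1
      · apply coeff_eq_zero_of_natDegree_lt
        exact lt_of_le_of_lt ((natDegree_aeval_le w _ _ hxd).trans (hh j)) (by omega)
  refine ⟨ξ, fun i => arcP 1 (b i) fun q => ξ (Sum.inr (Sum.inl ⟨i, q⟩)),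
    fun i q => ξ (Sum.inr (Sum.inr ⟨i, q⟩)), fun t => hξ (Sum.inr (Sum.inr t)), hxc,
    fun i => arcP_coeff_zero _ _ _, hH0, fun i => sub_eq_zero.1 (hG0 i), ?_⟩
  by_contra hno
  push Not at hno
  apply hξ0
  have hxx : (xP w x₀ fun q => ξ (Sum.inl q)) = fun l => C (x₀ l) := funext hno
  have h1 : ∀ i, (arcP 1 (b i) fun q => ξ (Sum.inr (Sum.inl ⟨i, q⟩))) ^ m i *
      ∏ q, (1 + C (ξ (Sum.inr (Sum.inr ⟨i, q⟩))) * X : k[X]) ^ c i q = 1 := by
    intro i
    have h2 := sub_eq_zero.1 (hG0 i)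
    rw [hxx, aeval_C', mul_assoc] at h2
    have h3 : (C (MvPolynomial.eval x₀ (g i)) : k[X]) ≠ 0 := by
      rw [Ne, C_eq_zero]; exact hy i
    refine mul_left_cancel₀ h3 ?_
    rw [mul_one]
    exact h2.symm
  have hunit : ∀ (p : k[X]), IsUnit p → ∀ n, p.coeff (n + 1) = 0 := by
    intro p hp n
    apply coeff_eq_zero_of_natDegree_lt
    rw [natDegree_eq_zero_of_isUnit hp]
    omega
  funext q
  rcases q with q | q | q
  · obtain ⟨l, q⟩ := q
    have h2 := congrArg (fun p => p.coeff (q.1 + 1)) (hno l)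
    simp only [coeff_C_succ] at h2
    unfold xP at h2
    rw [arcP_coeff] at h2
    exact h2
  · obtain ⟨i, q⟩ := q
    have h2 : IsUnit (arcP 1 (b i) fun q => ξ (Sum.inr (Sum.inl ⟨i, q⟩))) :=
      (isUnit_pow_iff (hm i)).1 (isUnit_of_dvd_one ((Dvd.intro _ (h1 i))))
    have h3 := hunit _ h2 q.1
    rw [arcP_coeff] at h3
    exact h3
  · obtain ⟨i, q⟩ := q
    have h2 : IsUnit ((1 + C (ξ (Sum.inr (Sum.inr ⟨i, q⟩))) * X : k[X]) ^ c i q) := by
      refine isUnit_of_dvd_one (dvd_trans ?_ (Dvd.intro_left _ (h1 i)))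
      exact Finset.dvd_prod_of_mem
        (fun q => (1 + C (ξ (Sum.inr (Sum.inr ⟨i, q⟩))) * X : k[X]) ^ c i q) (Finset.mem_univ q)
    have h3 := hunit _ ((isUnit_pow_iff (hc i q)).1 h2) 0
    rw [coeff_add, coeff_C_mul, coeff_X_one, mul_one, coeff_one] at h3
    simpa using h3

theorem arc (w : σ → ℕ) (m a b e : ι → ℕ) (c : ∀ i, Fin (e i) → ℕ) (d : τ → ℕ)
    (g : ι → MvPolynomial σ k) (h : τ → MvPolynomial σ k)
    (hg : ∀ i, MvPolynomial.weightedTotalDegree w (g i) ≤ m i * a i)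
    (hh : ∀ j, MvPolynomial.weightedTotalDegree w (h j) ≤ d j)
    (hb : ∀ i, m i * b i + ∑ q, c i q = m i * a i) (hm : ∀ i, m i ≠ 0) (hc : ∀ i q, c i q ≠ 0)
    (hnum : ∑ i, m i * a i + ∑ j, d j < ∑ l, w l + ∑ i, (b i + e i))
    (x₀ : σ → k) (hx : ∀ j, MvPolynomial.eval x₀ (h j) = 0)
    (hy : ∀ i, MvPolynomial.eval x₀ (g i) ≠ 0) :
    ∃ (x : σ → k[X]) (z : ι → k[X]) (β : ∀ i, Fin (e i) → k),
      (∀ l, (x l).coeff 0 = x₀ l) ∧ (∀ i, (z i).coeff 0 = 1) ∧
      (∀ j, MvPolynomial.aeval x (h j) = 0) ∧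
      (∀ i, MvPolynomial.aeval x (g i) =
        C (MvPolynomial.eval x₀ (g i)) * z i ^ m i * ∏ q, (1 + C (β i q) * X) ^ c i q) ∧
      ∃ l, x l ≠ C (x₀ l) := by
  obtain ⟨ξ, z, β, -, h1, h2, h3, h4, h5⟩ := arcG w m a b e c d g h hg hh hb hm hc
    (T' := Empty) (fun t => t.elim) (fun t => t.elim) (by simpa using hnum) x₀ hx hy
  exact ⟨_, z, β, h1, h2, h3, h4, h5⟩

/-- arcs with prescribed contact such that the coordinate `l₀` has no linear term -/
theorem arc1 (w : σ → ℕ) (m a b e : ι → ℕ) (c : ∀ i, Fin (e i) → ℕ) (d : τ → ℕ)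
    (g : ι → MvPolynomial σ k) (h : τ → MvPolynomial σ k)
    (hg : ∀ i, MvPolynomial.weightedTotalDegree w (g i) ≤ m i * a i)
    (hh : ∀ j, MvPolynomial.weightedTotalDegree w (h j) ≤ d j)
    (hb : ∀ i, m i * b i + ∑ q, c i q = m i * a i) (hm : ∀ i, m i ≠ 0) (hc : ∀ i q, c i q ≠ 0)
    (hnum : ∑ i, m i * a i + ∑ j, d j + 1 < ∑ l, w l + ∑ i, (b i + e i))
    (l₀ : σ) (hl₀ : 0 < w l₀)
    (x₀ : σ → k) (hx : ∀ j, MvPolynomial.eval x₀ (h j) = 0)
    (hy : ∀ i, MvPolynomial.eval x₀ (g i) ≠ 0) :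
    ∃ (x : σ → k[X]) (z : ι → k[X]) (β : ∀ i, Fin (e i) → k),
      (∀ l, (x l).natDegree ≤ w l) ∧ (x l₀).coeff 1 = 0 ∧
      (∀ l, (x l).coeff 0 = x₀ l) ∧ (∀ i, (z i).coeff 0 = 1) ∧
      (∀ j, MvPolynomial.aeval x (h j) = 0) ∧
      (∀ i, MvPolynomial.aeval x (g i) =
        C (MvPolynomial.eval x₀ (g i)) * z i ^ m i * ∏ q, (1 + C (β i q) * X) ^ c i q) ∧
      ∃ l, x l ≠ C (x₀ l) := by
  obtain ⟨ξ, z, β, h0, h1, h2, h3, h4, h5⟩ := arcG w m a b e c d g h hg hh hb hm hc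
    (T' := Unit) (fun _ => MvPolynomial.X (Sum.inl ⟨l₀, ⟨0, hl₀⟩⟩)) (fun _ => by simp)
    (by simpa using hnum) x₀ hx hy
  refine ⟨_, z, β, fun l => arcP_natDegree _ _ _, ?_, h1, h2, h3, h4, h5⟩
  have h6 := h0 ()
  rw [MvPolynomial.aeval_X] at h6
  have h7 := arcP_coeff (algebraMap k k (x₀ l₀)) (w l₀) (fun q => ξ (Sum.inl ⟨l₀, q⟩)) ⟨0, hl₀⟩
  rw [h6] at h7
  exact h7

end main

end Pool.Agent.PGE
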