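import Mathlib

/-!
Extension of a ring homomorphism to a local subring of the function field.
-/

set_option autoImplicit false

namespace Pool.Agent.PGE

section

variable {R K L : Type*} [CommRing R] [Field K] [Field L] (e : R →+* K) (ψ : R →+* L)
  (M : Submonoid R)

/-- the subring of the fractions `e p / e q` with `q ∈ M`. -/
def locSub : Subring K where
  carrier := {κ | ∃ p : R, ∃ q ∈ M, κ * e q = e p}
  mul_mem' := by
    rintro a b ⟨p, q, hq, h⟩ ⟨p', q', hq', h'⟩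
    refine ⟨p * p', q * q', M.mul_mem hq hq', ?_⟩
    rw [map_mul, map_mul, ← h, ← h']
    ring
  one_mem' := ⟨1, 1, M.one_mem, by simp⟩
  add_mem' := by
    rintro a b ⟨p, q, hq, h⟩ ⟨p', q', hq', h'⟩
    refine ⟨p * q' + p' * q, q * q', M.mul_mem hq hq', ?_⟩
    rw [map_add, map_mul, map_mul, map_mul, ← h, ← h']
    ring
  zero_mem' := ⟨0, 1, M.one_mem, by simp⟩
  neg_mem' := by
    rintro a ⟨p, q, hq, h⟩
    refine ⟨-p, q, hq, ?_⟩
    rw [map_neg, ← h]
    ring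

lemma mem_locSub {κ : K} : κ ∈ locSub e M ↔ ∃ p : R, ∃ q ∈ M, κ * e q = e p := Iff.rfl

theorem exists_ext (hψ : ∀ q ∈ M, ψ q ≠ 0)
    (hker : ∀ p, e p = 0 → ψ p = 0) :
    ∃ Θ : locSub e M →+* L, ∀ (κ : locSub e M) (p q : R), q ∈ M → (κ : K) * e q = e p →
      Θ κ * ψ q = ψ p := by
  classical
  have hwd : ∀ (κ : K) (p q p' q' : R), q ∈ M → q' ∈ M → κ * e q = e p → κ * e q' = e p' →
      ψ p * ψ q' = ψ p' * ψ q := by
    intro κ p q p' q' hq hq' h h'
    have h1 : e (p * q' - p' * q) = 0 := by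
      rw [map_sub, map_mul, map_mul, ← h, ← h']
      ring
    have h2 := hker _ h1
    rw [map_sub, map_mul, map_mul] at h2
    exact sub_eq_zero.mp h2
  have hch : ∀ κ : locSub e M, ∃ pq : R × R, pq.2 ∈ M ∧ (κ : K) * e pq.2 = e pq.1 := by
    rintro ⟨κ, p, q, hq, h⟩
    exact ⟨(p, q), hq, h⟩
  choose F hF1 hF2 using hch
  let Θ₀ : locSub e M → L := fun κ => ψ (F κ).1 / ψ (F κ).2
  have hΘ : ∀ (κ : locSub e M) (p q : R), q ∈ M → (κ : K) * e q = e p →
      Θ₀ κ * ψ q = ψ p := by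
    intro κ p q hq h
    have h1 := hwd κ (F κ).1 (F κ).2 p q (hF1 κ) hq (hF2 κ) h
    have h2 := hψ _ (hF1 κ)
    change ψ (F κ).1 / ψ (F κ).2 * ψ q = ψ p
    field_simp
    linear_combination h1
  have huniq : ∀ (κ : locSub e M) (p q : R) (l : L), q ∈ M → (κ : K) * e q = e p →
      l * ψ q = ψ p → Θ₀ κ = l := by
    intro κ p q l hq h hl
    exact mul_right_cancel₀ (hψ q hq) ((hΘ κ p q hq h).trans hl.symm)
  refine ⟨{ toFun := Θ₀, map_one' := ?_, map_mul' := ?_, map_zero' := ?_, map_add' := ?_ }, hΘ⟩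
  · refine huniq 1 1 1 1 M.one_mem ?_ ?_ <;> simp
  · intro a b
    obtain ⟨p, q, hq, h⟩ := mem_locSub e M |>.mp a.2
    obtain ⟨p', q', hq', h'⟩ := mem_locSub e M |>.mp b.2
    refine huniq (a * b) (p * p') (q * q') _ (M.mul_mem hq hq') ?_ ?_
    · rw [Subring.coe_mul, map_mul, map_mul, ← h, ← h']
      ring
    · rw [map_mul, map_mul, ← hΘ a p q hq h, ← hΘ b p' q' hq' h']
      ring
  · refine huniq 0 0 1 0 M.one_mem ?_ ?_ <;> simp
  · intro a b
    obtain ⟨p, q, hq, h⟩ := mem_locSub e M |>.mp a.2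
    obtain ⟨p', q', hq', h'⟩ := mem_locSub e M |>.mp b.2
    refine huniq (a + b) (p * q' + p' * q) (q * q') _ (M.mul_mem hq hq') ?_ ?_
    · rw [Subring.coe_add, map_add, map_mul, map_mul, map_mul, ← h, ← h']
      ring
    · rw [map_add, map_mul, map_mul, map_mul, ← hΘ a p q hq h, ← hΘ b p' q' hq' h']
      ring

end

end Pool.Agent.PGE
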