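import Pool.Agent.Helper45_PGE.Pat2
import Pool.Agent.Helper45_PGE.Rel
import Pool.Agent.Helper45_PGE.Minp

/-!
Algebraic core: from arcs on the model to a homomorphism from the coordinate ring of an affine
open set to a field of genus at most one.
-/

set_option autoImplicit false

open Polynomial

universe u

namespace Pool.Agent.PGE

lemma mem_range_of_isAlgebraic {k L : Type*} [Field k] [IsAlgClosed k] [Field L] [Algebra k L]
    (z : L) (hz : IsAlgebraic k z) : ∃ c : k, algebraMap k L c = z := by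
  have h1 := minpoly.irreducible hz.isIntegral
  have h2 := IsAlgClosed.degree_eq_one_of_irreducible k h1
  exact minpoly.mem_range_of_degree_eq_one k z h2

lemma rep_of_closure {R K : Type*} [CommRing R] [Field K] (e : R →+* K) (s : Set K)
    (hs : ∀ κ ∈ s, ∃ r, e r = κ) (hcl : Subfield.closure s = ⊤) (κ : K) :
    ∃ p q : R, e q ≠ 0 ∧ κ * e q = e p := by
  have h1 : κ ∈ Subfield.closure s := by rw [hcl]; trivial
  obtain ⟨y, hy, z, hz, h2⟩ := Subfield.mem_closure_iff.mp h1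
  have h3 : Subring.closure s ≤ e.range := by
    rw [Subring.closure_le]
    intro κ hκ
    obtain ⟨r, hr⟩ := hs κ hκ
    exact ⟨r, hr⟩
  obtain ⟨p, hp⟩ := h3 hy
  obtain ⟨q, hq⟩ := h3 hz
  by_cases hz0 : z = 0
  · refine ⟨0, 1, ?_, ?_⟩
    · rw [map_one]
      exact one_ne_zero
    · rw [map_zero, ← h2, hz0, div_zero, zero_mul]
  · refine ⟨p, q, ?_, ?_⟩
    · rw [hq]
      exact hz0
    · rw [hp, hq, ← h2, div_mul_cancel₀ _ hz0]

theorem core {k : Type u} [Field k] [IsAlgClosed k] {K B : Type u} [Field K] [CommRing B]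
    (φ : k →+* K) (γ : k →+* B) (hγ : γ.FiniteType) (j : B →+* K) (hj : Function.Injective j)
    (hjφ : ∀ c, j (γ c) = φ c) (hfrac : ∀ κ : K, ∃ a b : B, j b ≠ 0 ∧ κ * j b = j a)
    {σ ι τ : Type*} [Fintype σ] [Fintype ι] [Fintype τ] (m : ι → ℕ)
    (g : ι → MvPolynomial σ k) (h : τ → MvPolynomial σ k) (x : σ → K) (y : ι → K)
    (hArc : ArcL m g h) (hcl : Subfield.closure (Set.range φ ∪ Set.range x ∪ Set.range y) = ⊤)
    (hy0 : ∀ i, y i ≠ 0)
    (hP : RingHom.ker (MvPolynomial.eval₂Hom φ (Sum.elim x y)) ∈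
      (Ideal.span (Set.range (fun j => MvPolynomial.rename (Sum.inl : σ → σ ⊕ ι) (h j)) ∪
        Set.range (fun i => MvPolynomial.X (Sum.inr i) ^ m i -
        MvPolynomial.rename (Sum.inl : σ → σ ⊕ ι) (g i)))).minimalPrimes) :
    ∃ (L : Type u) (_ : Field L) (_ : Algebra k L), Good k L ∧ ∃ Ψ : B →+* L,
      (∀ c : k, Ψ (γ c) = algebraMap k L c) ∧ ∃ a, Transcendental k (Ψ a) := by
  classical
  set e : MvPolynomial (σ ⊕ ι) k →+* K := MvPolynomial.eval₂Hom φ (Sum.elim x y) with he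
  set I := (Ideal.span (Set.range (fun j => MvPolynomial.rename (Sum.inl : σ → σ ⊕ ι) (h j)) ∪
        Set.range (fun i => MvPolynomial.X (Sum.inr i) ^ m i -
        MvPolynomial.rename (Sum.inl : σ → σ ⊕ ι) (g i)))) with hI
  have heC : ∀ c, e (MvPolynomial.C c) = φ c := fun c => by
    rw [he]; exact MvPolynomial.eval₂Hom_C _ _ _
  have heX : ∀ s, e (MvPolynomial.X s) = Sum.elim x y s := fun s => by
    rw [he]; exact MvPolynomial.eval₂Hom_X' _ _ _
  -- representatives
  have hrep : ∀ κ : K, ∃ p q, e q ≠ 0 ∧ κ * e q = e p := by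
    refine rep_of_closure e _ ?_ hcl
    rintro κ ((⟨c, rfl⟩ | ⟨l, rfl⟩) | ⟨i, rfl⟩)
    · exact ⟨MvPolynomial.C c, heC c⟩
    · exact ⟨MvPolynomial.X (Sum.inl l), heX _⟩
    · exact ⟨MvPolynomial.X (Sum.inr i), heX _⟩
  choose pB qB hqB hpB using fun b : B => hrep (j b)
  choose A E hE hA using fun l : σ => hfrac (x l)
  -- generators
  letI : Algebra k B := γ.toAlgebra
  obtain ⟨s, hs⟩ : ∃ s : Finset B, Algebra.adjoin k (s : Set B) = ⊤ := hγ.out
  obtain ⟨q₀, hq₀, hq₁⟩ := minpG I (RingHom.ker e) hP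
  have hPp : (RingHom.ker e).IsPrime := hP.isPrime
  let f : MvPolynomial (σ ⊕ ι) k := (∏ b ∈ s, qB b) * q₀ * (∏ l, pB (E l)) *
    (∏ i, MvPolynomial.X (Sum.inr i))
  have hef : e f ≠ 0 := by
    rw [map_mul, map_mul, map_mul, map_prod, map_prod, map_prod]
    refine mul_ne_zero (mul_ne_zero (mul_ne_zero ?_ hq₀) ?_) ?_
    · exact Finset.prod_ne_zero_iff.mpr fun b _ => hqB b
    · refine Finset.prod_ne_zero_iff.mpr fun l _ => ?_
      rw [← hpB]
      exact mul_ne_zero (hE l) (hqB _)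
    · refine Finset.prod_ne_zero_iff.mpr fun i _ => ?_
      rw [heX]
      exact hy0 i
  -- the point
  obtain ⟨z, hz, hfz⟩ : ∃ z : σ ⊕ ι → k, (∀ p, e p = 0 → MvPolynomial.eval z p = 0) ∧
      MvPolynomial.eval z f ≠ 0 := by
    by_contra hno
    push Not at hno
    have h1 : f ∈ MvPolynomial.vanishingIdeal k (MvPolynomial.zeroLocus k (RingHom.ker e)) := by
      rw [MvPolynomial.mem_vanishingIdeal_iff]
      intro z hz
      rw [MvPolynomial.mem_zeroLocus_iff] at hz
      exact hno z (fun p hp => hz p hp)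
    rw [MvPolynomial.IsPrime.vanishingIdeal_zeroLocus] at h1
    exact hef h1
  have hfz' : (∀ b ∈ s, MvPolynomial.eval z (qB b) ≠ 0) ∧ MvPolynomial.eval z q₀ ≠ 0 ∧
      (∀ l, MvPolynomial.eval z (pB (E l)) ≠ 0) ∧ ∀ i, z (Sum.inr i) ≠ 0 := by
    rw [map_mul, map_mul, map_mul, map_prod, map_prod, map_prod] at hfz
    obtain ⟨h1, h2⟩ := mul_ne_zero_iff.mp hfz
    obtain ⟨h3, h4⟩ := mul_ne_zero_iff.mp h1
    obtain ⟨h5, h6⟩ := mul_ne_zero_iff.mp h3
    refine ⟨fun b hb => Finset.prod_ne_zero_iff.mp h5 b hb, h6,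
      fun l => Finset.prod_ne_zero_iff.mp h4 l (Finset.mem_univ l), fun i => ?_⟩
    have h7 := Finset.prod_ne_zero_iff.mp h2 i (Finset.mem_univ i)
    rwa [MvPolynomial.eval_X] at h7
  obtain ⟨hz1, hz2, hz3, hz4⟩ := hfz'
  have hIe : ∀ p ∈ I, e p = 0 := fun p hp => hP.1.2 hp
  have hzr : ∀ p : MvPolynomial σ k, MvPolynomial.eval z (MvPolynomial.rename Sum.inl p) =
      MvPolynomial.eval (fun l => z (Sum.inl l)) p := by
    intro p
    rw [MvPolynomial.eval_rename]
    rfl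
  obtain ⟨L, ψ, hgood, hψL, hψ0, hψh, hψg, l, hl⟩ := hArc (fun l => z (Sum.inl l))
    (fun i => z (Sum.inr i))
    (fun t => by
      rw [← hzr]
      exact hz _ (hIe _ (Ideal.subset_span (Or.inl ⟨t, rfl⟩))))
    (fun i => by
      refine ⟨hz4 i, ?_⟩
      have h1 := hz _ (hIe _ (Ideal.subset_span (Or.inr ⟨i, rfl⟩)))
      rw [map_sub, map_pow, MvPolynomial.eval_X, hzr] at h1
      exact sub_eq_zero.mp h1)
  have hzz : Sum.elim (fun l => z (Sum.inl l)) (fun i => z (Sum.inr i)) = z := by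
    funext s
    rcases s with s | s <;> rfl
  rw [hzz] at hψ0
  have hψne : ∀ p, MvPolynomial.eval z p ≠ 0 → ψ p ≠ 0 := by
    intro p hp h1
    refine hp ?_
    rw [← hψ0, h1, map_zero]
  have hψI : ∀ p ∈ I, ψ p = 0 := by
    have h1 : I ≤ RingHom.ker (ψ : MvPolynomial (σ ⊕ ι) k →+* PowerSeries k) := by
      rw [hI, Ideal.span_le]
      rintro p (⟨t, rfl⟩ | ⟨i, rfl⟩)
      · exact hψh t
      · exact hψg i
    intro p hp
    exact h1 hp
  have hψP : ∀ p, e p = 0 → ψ p = 0 := by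
    intro p hp
    exact hq₁ (PowerSeries k) (ψ : MvPolynomial (σ ⊕ ι) k →+* PowerSeries k) hψI
      (hψne _ hz2) p hp
  let ψL : MvPolynomial (σ ⊕ ι) k →+* L :=
    ((HahnSeries.ofPowerSeries ℤ k).comp
      (ψ : MvPolynomial (σ ⊕ ι) k →+* PowerSeries k)).codRestrict L.toSubfield.toSubring hψL
  have hψLv : ∀ p, (ψL p : LaurentSeries k) = (ψ p : LaurentSeries k) := fun p => rfl
  have hinj : Function.Injective (HahnSeries.ofPowerSeries ℤ k) :=
    HahnSeries.ofPowerSeries_injective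
  have hψL0 : ∀ p, ψL p = 0 ↔ ψ p = 0 := by
    intro p
    constructor
    · intro h1
      apply hinj
      rw [map_zero]
      have h2 := congrArg (fun v : L => (v : LaurentSeries k)) h1
      exact h2
    · intro h1
      apply Subtype.ext
      rw [hψLv, h1]
      exact map_zero _
  have hψLC : ∀ c, ψL (MvPolynomial.C c) = algebraMap k L c := by
    intro c
    apply Subtype.ext
    rw [hψLv]
    have h1 : ψ (MvPolynomial.C c) = PowerSeries.C c := ψ.commutes c
    rw [h1, PowerSeries.coe_C, ← LaurentSeries.algebraMap_apply]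
    rfl
  let M : Submonoid (MvPolynomial (σ ⊕ ι) k) :=
    { carrier := {q | MvPolynomial.eval z q ≠ 0}
      mul_mem' := fun {a b} ha hb => by
        rw [Set.mem_ofPred_eq, map_mul]
        exact mul_ne_zero ha hb
      one_mem' := by
        rw [Set.mem_ofPred_eq, map_one]
        exact one_ne_zero }
  have hM : ∀ q, q ∈ M ↔ MvPolynomial.eval z q ≠ 0 := fun q => Iff.rfl
  obtain ⟨Θ, hΘ⟩ := exists_ext e ψL M
    (fun q hq => by rw [Ne, hψL0]; exact hψne q hq)
    (fun p hp => (hψL0 p).mpr (hψP p hp))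
  have hjO : ∀ b, j b ∈ locSub e M := by
    intro b
    have hb : b ∈ Algebra.adjoin k (s : Set B) := by rw [hs]; trivial
    induction hb using Algebra.adjoin_induction with
    | mem b hb =>
      exact ⟨pB b, qB b, hz1 b hb, hpB b⟩
    | algebraMap c =>
      refine ⟨MvPolynomial.C c, 1, M.one_mem, ?_⟩
      rw [map_one, mul_one, heC, ← hjφ]
      rfl
    | add b b' _ _ h1 h2 =>
      rw [map_add]
      exact (locSub e M).add_mem h1 h2
    | mul b b' _ _ h1 h2 =>
      rw [map_mul]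
      exact (locSub e M).mul_mem h1 h2
  let Ψ : B →+* L := Θ.comp (j.codRestrict (locSub e M) hjO)
  refine ⟨L, inferInstance, inferInstance, hgood, Ψ, ?_, ?_⟩
  · intro c
    have h1 := hΘ ⟨j (γ c), hjO _⟩ (MvPolynomial.C c) 1 M.one_mem (by
      rw [map_one, mul_one, heC]
      exact hjφ c)
    rw [map_one, mul_one, hψLC] at h1
    exact h1
  · by_contra hno
    push Not at hno
    have hcon : ∀ b, ∃ c : k, algebraMap k L c = Ψ b := by
      intro b
      refine mem_range_of_isAlgebraic _ ?_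
      have := hno b
      rwa [Transcendental, not_not] at this
    obtain ⟨c₁, hc₁⟩ := hcon (A l)
    obtain ⟨c₂, hc₂⟩ := hcon (E l)
    have hxO : x l ∈ locSub e M := ⟨MvPolynomial.X (Sum.inl l), 1, M.one_mem, by
      rw [map_one, mul_one, heX]; rfl⟩
    have h1 : Θ ⟨x l, hxO⟩ = ψL (MvPolynomial.X (Sum.inl l)) := by
      have h2 := hΘ ⟨x l, hxO⟩ (MvPolynomial.X (Sum.inl l)) 1 M.one_mem (by
        rw [map_one, mul_one, heX]; rfl)
      rwa [map_one, mul_one] at h2
    have h2 : Θ ⟨x l, hxO⟩ * Ψ (E l) = Ψ (A l) := by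
      change Θ ⟨x l, hxO⟩ * Θ ⟨j (E l), hjO _⟩ = Θ ⟨j (A l), hjO _⟩
      rw [← map_mul]
      congr 1
      apply Subtype.ext
      exact hA l
    have h3 : Ψ (E l) ≠ 0 := by
      intro h4
      obtain ⟨p', q', hq', h5⟩ := hjO (E l)
      have h6 := hΘ ⟨j (E l), hjO _⟩ p' q' hq' h5
      change Ψ (E l) * ψL q' = ψL p' at h6
      rw [h4, zero_mul] at h6
      have h7 : e (p' * qB (E l) - pB (E l) * q') = 0 := by
        rw [map_sub, map_mul, map_mul, ← h5, ← hpB]
        ring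
      have h8 := (hψL0 _).mpr (hψP _ h7)
      rw [map_sub, map_mul, map_mul, ← h6, zero_mul, zero_sub, neg_eq_zero] at h8
      rcases mul_eq_zero.mp h8 with h9 | h9
      · exact hψne _ (hz3 l) ((hψL0 _).mp h9)
      · exact hψne _ hq' ((hψL0 _).mp h9)
    have h4 : c₂ ≠ 0 := by
      intro h5
      rw [h5, map_zero] at hc₂
      exact h3 hc₂.symm
    have h5 : ψL (MvPolynomial.X (Sum.inl l)) = algebraMap k L (c₁ / c₂) := by
      rw [← h1, map_div₀, hc₁, hc₂]
      exact eq_div_of_mul_eq h3 h2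
    rw [← hψLC] at h5
    have h6 := congrArg (fun v : L => (v : LaurentSeries k)) h5
    have h7 : ψ (MvPolynomial.X (Sum.inl l)) = ψ (MvPolynomial.C (c₁ / c₂)) := hinj h6
    refine hl (c₁ / c₂) ?_
    rw [h7]
    exact ψ.commutes _

end Pool.Agent.PGE
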