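import Pool.Agent.Helper45_PGE.Core
import Pool.Agent.Helper45_PGE.PatH2

/-!
Algebraic core, homogeneous version.
-/

set_option autoImplicit false

open Polynomial

universe u

namespace Pool.Agent.PGE

lemma rootMult_pow {k : Type*} [Field k] (p : k[X]) (n : ℕ) (α : k) :
    (p ^ n).rootMultiplicity α = n * p.rootMultiplicity α := by
  classical
  rw [← count_roots, roots_pow, Multiset.count_nsmul, count_roots]

lemma nonconst {k : Type*} [Field k] [IsAlgClosed k] [CharZero k] {σ : Type*} [Fintype σ]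
    (w : σ → ℕ) (hw : Finset.univ.gcd w = 1) (l₀ : σ) (hl₀ : 0 < w l₀) (f : σ → k[X])
    (hd : ∀ l, (f l).natDegree ≤ w l) (h1 : (f l₀).coeff 1 = 0) (h0 : ∀ l, (f l).coeff 0 ≠ 0)
    (hc : ∀ l, ∃ c : k, f l ^ w l₀ = C c * f l₀ ^ w l) (l : σ) : f l = C ((f l).coeff 0) := by
  have hne : ∀ l, f l ≠ 0 := by
    intro l h
    exact h0 l (by rw [h, coeff_zero])
  have hF : (f l₀).natDegree = 0 := by
    by_contra hnd
    obtain ⟨α, hα⟩ := IsAlgClosed.exists_root (f l₀) (fun h => hnd (natDegree_eq_of_degree_eq_some h))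
    have hα0 : α ≠ 0 := by
      intro h
      rw [h, IsRoot.def, ← coeff_zero_eq_eval_zero] at hα
      exact h0 l₀ hα
    set v := (f l₀).rootMultiplicity α with hv
    have hv1 : 0 < v := (rootMultiplicity_pos (hne l₀)).mpr hα
    have hdiv : ∀ l, w l₀ ∣ w l * v := by
      intro l
      obtain ⟨c, hc⟩ := hc l
      have hc0 : c ≠ 0 := by
        intro h
        rw [h, C_0, zero_mul] at hc
        exact pow_ne_zero _ (hne l) hc
      have h2 := congrArg (fun p => p.rootMultiplicity α) hc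
      rw [rootMult_pow, rootMultiplicity_mul
        (mul_ne_zero (C_ne_zero.mpr hc0) (pow_ne_zero _ (hne l₀))), rootMultiplicity_C, zero_add,
        rootMult_pow] at h2
      exact ⟨_, h2.symm⟩
    have hdv : w l₀ ∣ v := by
      have h2 : w l₀ ∣ Finset.univ.gcd (fun l => w l * v) := Finset.dvd_gcd fun l _ => hdiv l
      rw [Finset.gcd_mul_right, hw, one_mul] at h2
      simpa using h2
    have hle : w l₀ ≤ v := Nat.le_of_dvd hv1 hdv
    obtain ⟨G, hG⟩ : (X - C α) ^ w l₀ ∣ f l₀ :=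
      dvd_trans (pow_dvd_pow _ hle) (pow_rootMultiplicity_dvd _ _)
    have hG0 : G ≠ 0 := by
      intro h
      rw [h, mul_zero] at hG
      exact hne l₀ hG
    have hGd : G.natDegree = 0 := by
      have h2 := hd l₀
      rw [hG, natDegree_mul (pow_ne_zero _ (X_sub_C_ne_zero α)) hG0, natDegree_pow,
        natDegree_X_sub_C] at h2
      omega
    obtain ⟨g, hg⟩ : ∃ g, G = C g := ⟨_, eq_C_of_natDegree_eq_zero hGd⟩
    have hg0 : g ≠ 0 := by
      intro h
      rw [h, C_0] at hg
      exact hG0 hg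
    have h2 : (derivative (f l₀)).eval 0 = 0 := by
      rw [← coeff_zero_eq_eval_zero, coeff_derivative, zero_add, h1, zero_mul]
    rw [hG, hg, derivative_mul, derivative_C, mul_zero, add_zero, derivative_pow, derivative_sub,
      derivative_X, derivative_C, sub_zero, mul_one] at h2
    simp only [eval_mul, eval_C, eval_pow, eval_sub, eval_X, zero_sub] at h2
    rcases mul_eq_zero.mp h2 with h3 | h3
    · rcases mul_eq_zero.mp h3 with h4 | h4
      · have : (w l₀ : k) ≠ 0 := Nat.cast_ne_zero.mpr hl₀.ne'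
        exact this h4
      · exact pow_ne_zero _ (neg_ne_zero.mpr hα0) h4
    · exact hg0 h3
  obtain ⟨c, hc⟩ := hc l
  rw [eq_C_of_natDegree_eq_zero hF, ← C_pow, ← C_mul] at hc
  have h2 := congrArg natDegree hc
  rw [natDegree_pow, natDegree_C] at h2
  refine eq_C_of_natDegree_eq_zero ?_
  rcases Nat.mul_eq_zero.mp h2 with h3 | h3
  · omega
  · exact h3

lemma exists_point {k : Type*} [Field k] [IsAlgClosed k] {s : Type*} [Finite s] {K : Type*} [Field K]
    (e : MvPolynomial s k →+* K) (T : Finset (MvPolynomial s k)) (hT : ∀ p ∈ T, e p ≠ 0) :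
    ∃ z : s → k, (∀ p, e p = 0 → MvPolynomial.eval z p = 0) ∧
      ∀ p ∈ T, MvPolynomial.eval z p ≠ 0 := by
  have hP : (RingHom.ker e).IsPrime := RingHom.ker_isPrime e
  have hf : e (∏ p ∈ T, p) ≠ 0 := by
    rw [map_prod]
    exact Finset.prod_ne_zero_iff.mpr hT
  obtain ⟨z, hz, hfz⟩ : ∃ z : s → k, (∀ p, e p = 0 → MvPolynomial.eval z p = 0) ∧
      MvPolynomial.eval z (∏ p ∈ T, p) ≠ 0 := by
    by_contra hno
    push Not at hno
    have h1 : ∏ p ∈ T, p ∈ MvPolynomial.vanishingIdeal k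
        (MvPolynomial.zeroLocus k (RingHom.ker e)) := by
      rw [MvPolynomial.mem_vanishingIdeal_iff]
      intro z hz
      rw [MvPolynomial.mem_zeroLocus_iff] at hz
      exact hno z (fun p hp => hz p hp)
    rw [MvPolynomial.IsPrime.vanishingIdeal_zeroLocus] at h1
    exact hf h1
  refine ⟨z, hz, ?_⟩
  rw [map_prod] at hfz
  exact Finset.prod_ne_zero_iff.mp hfz

theorem coreH {k : Type u} [Field k] [IsAlgClosed k] [CharZero k] {K K' B : Type*} [Field K]
    [Field K'] [CommRing B]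
    (φ : k →+* K) (γ : k →+* B) (hγ : γ.FiniteType) (j : B →+* K)
    (hjφ : ∀ c, j (γ c) = φ c) (hfrac : ∀ κ : K, ∃ a b : B, j b ≠ 0 ∧ κ * j b = j a)
    (i : K →+* K')
    {σ ι τ : Type*} [Fintype σ] [Fintype ι] [Fintype τ] (w : σ → ℕ)
    (hw : Finset.univ.gcd w = 1) (l₀ : σ) (hl₀ : 0 < w l₀) (m : ι → ℕ)
    (g : ι → MvPolynomial σ k) (h : τ → MvPolynomial σ k) (e : MvPolynomial (σ ⊕ ι) k →+* K')
    (heC : ∀ c, e (MvPolynomial.C c) = i (φ c)) (hArc : ArcH w l₀ m g h)
    (hrep : ∀ κ : K, ∃ p q, e q ≠ 0 ∧ i κ * e q = e p)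
    (halg : ∀ l, ∃ F : K[X], F ≠ 0 ∧ F.eval₂ i
      (e (MvPolynomial.X (Sum.inl l)) ^ w l₀ / e (MvPolynomial.X (Sum.inl l₀)) ^ w l) = 0)
    (hX0 : ∀ s, e (MvPolynomial.X s) ≠ 0)
    (hP : RingHom.ker e ∈
      (Ideal.span (Set.range (fun j => MvPolynomial.rename (Sum.inl : σ → σ ⊕ ι) (h j)) ∪
        Set.range (fun i => MvPolynomial.X (Sum.inr i) ^ m i -
        MvPolynomial.rename (Sum.inl : σ → σ ⊕ ι) (g i)))).minimalPrimes) :
    ∃ (L : Type u) (_ : Field L) (_ : Algebra k L), Good k L ∧ ∃ Ψ : B →+* L,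
      (∀ c : k, Ψ (γ c) = algebraMap k L c) ∧ ∃ a, Transcendental k (Ψ a) := by
  classical
  set I := (Ideal.span (Set.range (fun j => MvPolynomial.rename (Sum.inl : σ → σ ⊕ ι) (h j)) ∪
        Set.range (fun i => MvPolynomial.X (Sum.inr i) ^ m i -
        MvPolynomial.rename (Sum.inl : σ → σ ⊕ ι) (g i)))) with hI
  -- representatives
  choose pK qK hqK hpK using hrep
  choose A E hE hA using hfrac
  choose F hF0 hF using halg
  have hpK0 : ∀ κ, κ ≠ 0 → e (pK κ) ≠ 0 := by
    intro κ hκ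
    rw [← hpK]
    exact mul_ne_zero ((map_ne_zero i).mpr hκ) (hqK κ)
  -- generators
  letI : Algebra k B := γ.toAlgebra
  obtain ⟨s, hs⟩ : ∃ s : Finset B, Algebra.adjoin k (s : Set B) = ⊤ := hγ.out
  obtain ⟨q₀, hq₀, hq₁⟩ := minpG I (RingHom.ker e) hP
  let T : Finset (MvPolynomial (σ ⊕ ι) k) := s.image (fun b => qK (j b)) ∪ {q₀} ∪
    Finset.univ.image (fun s => MvPolynomial.X s) ∪
    Finset.univ.biUnion (fun l => (F l).support.biUnion (fun n =>
      {pK ((F l).coeff n), qK ((F l).coeff n), pK (j (E ((F l).coeff n)))}))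
  have hT : ∀ p ∈ T, e p ≠ 0 := by
    intro p hp
    simp only [T, Finset.mem_union, Finset.mem_image, Finset.mem_singleton, Finset.mem_univ,
      Finset.mem_biUnion, Finset.mem_insert, true_and] at hp
    rcases hp with ((⟨b, _, rfl⟩ | rfl) | ⟨s, rfl⟩) | ⟨l, n, hn, hp⟩
    · exact hqK _
    · exact hq₀
    · exact hX0 _
    · rcases hp with rfl | rfl | rfl
      · exact hpK0 _ (mem_support_iff.mp hn)
      · exact hqK _
      · exact hpK0 _ (hE _)
  obtain ⟨z, hz, hzT⟩ := exists_point e T hT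
  have hz1 : ∀ b ∈ s, MvPolynomial.eval z (qK (j b)) ≠ 0 := fun b hb => hzT _ (by
    simp only [T, Finset.mem_union, Finset.mem_image]
    exact Or.inl (Or.inl (Or.inl ⟨b, hb, rfl⟩)))
  have hz2 : MvPolynomial.eval z q₀ ≠ 0 := hzT _ (by
    simp only [T, Finset.mem_union, Finset.mem_singleton]
    exact Or.inl (Or.inl (Or.inr trivial)))
  have hz3 : ∀ s, z s ≠ 0 := by
    intro s
    have h1 := hzT (MvPolynomial.X s) (by
      simp only [T, Finset.mem_union, Finset.mem_image, Finset.mem_univ, true_and]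
      exact Or.inl (Or.inr ⟨s, rfl⟩))
    rwa [MvPolynomial.eval_X] at h1
  have hz4 : ∀ l, ∀ n ∈ (F l).support, MvPolynomial.eval z (pK ((F l).coeff n)) ≠ 0 ∧
      MvPolynomial.eval z (qK ((F l).coeff n)) ≠ 0 ∧
      MvPolynomial.eval z (pK (j (E ((F l).coeff n)))) ≠ 0 := by
    intro l n hn
    have h1 : ∀ p ∈ ({pK ((F l).coeff n), qK ((F l).coeff n), pK (j (E ((F l).coeff n)))} :
        Finset (MvPolynomial (σ ⊕ ι) k)), p ∈ T := by
      intro p hp
      simp only [T, Finset.mem_union, Finset.mem_biUnion, Finset.mem_univ, true_and]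
      exact Or.inr ⟨l, n, hn, hp⟩
    exact ⟨hzT _ (h1 _ (by simp)), hzT _ (h1 _ (by simp)), hzT _ (h1 _ (by simp))⟩
  have hIe : ∀ p ∈ I, e p = 0 := fun p hp => hP.1.2 hp
  have hzr : ∀ p : MvPolynomial σ k, MvPolynomial.eval z (MvPolynomial.rename Sum.inl p) =
      MvPolynomial.eval (fun l => z (Sum.inl l)) p := by
    intro p
    rw [MvPolynomial.eval_rename]
    rfl
  obtain ⟨L, ψ, hgood, hψL, hψ0, hψh, hψg, x, hxd, hx1, hψx, l, hl⟩ := hArc
    (fun l => z (Sum.inl l)) (fun i => z (Sum.inr i))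
    (fun t => by
      rw [← hzr]
      exact hz _ (hIe _ (Ideal.subset_span (Or.inl ⟨t, rfl⟩))))
    (fun i => by
      refine ⟨hz3 _, ?_⟩
      have h1 := hz _ (hIe _ (Ideal.subset_span (Or.inr ⟨i, rfl⟩)))
      rw [map_sub, map_pow, MvPolynomial.eval_X, hzr] at h1
      exact sub_eq_zero.mp h1)
  have hzz : Sum.elim (fun l => z (Sum.inl l)) (fun i => z (Sum.inr i)) = z := by
    funext s
    rcases s with s | s <;> rfl
  rw [hzz] at hψ0
  have hψne : ∀ p, MvPolynomial.eval z p ≠ 0 → ψ p ≠ 0 := by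
    intro p hp h1
    refine hp ?_
    rw [← hψ0, h1, map_zero]
  have hψI : ∀ p ∈ I, ψ p = 0 := by
    have h1 : I ≤ RingHom.ker (ψ : MvPolynomial (σ ⊕ ι) k →+* PowerSeries k) := by
      rw [hI, Ideal.span_le]
      rintro p (⟨t, rfl⟩ | ⟨i, rfl⟩)
      · exact hψh t
      · exact hψg i
    intro p hp
    exact h1 hp
  have hψP : ∀ p, e p = 0 → ψ p = 0 := by
    intro p hp
    exact hq₁ (PowerSeries k) (ψ : MvPolynomial (σ ⊕ ι) k →+* PowerSeries k) hψI
      (hψne _ hz2) p hp
  let ψL : MvPolynomial (σ ⊕ ι) k →+* L :=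
    ((HahnSeries.ofPowerSeries ℤ k).comp
      (ψ : MvPolynomial (σ ⊕ ι) k →+* PowerSeries k)).codRestrict L.toSubfield.toSubring hψL
  have hψLv : ∀ p, (ψL p : LaurentSeries k) = (ψ p : LaurentSeries k) := fun p => rfl
  have hinj : Function.Injective (HahnSeries.ofPowerSeries ℤ k) :=
    HahnSeries.ofPowerSeries_injective
  have hψL0 : ∀ p, ψL p = 0 ↔ ψ p = 0 := by
    intro p
    constructor
    · intro h1
      apply hinj
      rw [map_zero]
      have h2 := congrArg (fun v : L => (v : LaurentSeries k)) h1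
      exact h2
    · intro h1
      apply Subtype.ext
      rw [hψLv, h1]
      exact map_zero _
  have hψLC : ∀ c, ψL (MvPolynomial.C c) = algebraMap k L c := by
    intro c
    apply Subtype.ext
    rw [hψLv]
    have h1 : ψ (MvPolynomial.C c) = PowerSeries.C c := ψ.commutes c
    rw [h1, PowerSeries.coe_C, ← LaurentSeries.algebraMap_apply]
    rfl
  let M : Submonoid (MvPolynomial (σ ⊕ ι) k) :=
    { carrier := {q | MvPolynomial.eval z q ≠ 0}
      mul_mem' := fun {a b} ha hb => by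
        rw [Set.mem_ofPred_eq, map_mul]
        exact mul_ne_zero ha hb
      one_mem' := by
        rw [Set.mem_ofPred_eq, map_one]
        exact one_ne_zero }
  have hM : ∀ q, q ∈ M ↔ MvPolynomial.eval z q ≠ 0 := fun q => Iff.rfl
  obtain ⟨Θ, hΘ⟩ := exists_ext e ψL M
    (fun q hq => by rw [Ne, hψL0]; exact hψne q hq)
    (fun p hp => (hψL0 p).mpr (hψP p hp))
  have hjO : ∀ b, (i.comp j) b ∈ locSub e M := by
    intro b
    have hb : b ∈ Algebra.adjoin k (s : Set B) := by rw [hs]; trivial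
    induction hb using Algebra.adjoin_induction with
    | mem b hb =>
      exact ⟨pK (j b), qK (j b), hz1 b hb, hpK (j b)⟩
    | algebraMap c =>
      refine ⟨MvPolynomial.C c, 1, M.one_mem, ?_⟩
      rw [map_one, mul_one, heC, ← hjφ]
      rfl
    | add b b' _ _ h1 h2 =>
      rw [map_add]
      exact (locSub e M).add_mem h1 h2
    | mul b b' _ _ h1 h2 =>
      rw [map_mul]
      exact (locSub e M).mul_mem h1 h2
  let Ψ : B →+* L := Θ.comp ((i.comp j).codRestrict (locSub e M) hjO)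
  refine ⟨L, inferInstance, inferInstance, hgood, Ψ, ?_, ?_⟩
  · intro c
    have h1 := hΘ ⟨(i.comp j) (γ c), hjO _⟩ (MvPolynomial.C c) 1 M.one_mem (by
      rw [map_one, mul_one, heC]
      change i (j (γ c)) = _
      rw [hjφ])
    rw [map_one, mul_one, hψLC] at h1
    exact h1
  · by_contra hno
    push Not at hno
    have hcon : ∀ b, ∃ c : k, algebraMap k L c = Ψ b := by
      intro b
      refine mem_range_of_isAlgebraic _ ?_
      have := hno b
      rwa [Transcendental, not_not] at this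
    -- units
    have hunit : ∀ (κ : locSub e M) (p q : MvPolynomial (σ ⊕ ι) k), MvPolynomial.eval z p ≠ 0 →
        (κ : K') * e q = e p → Θ κ ≠ 0 := by
      intro κ p q hp hκ h4
      obtain ⟨p', q', hq', h5⟩ := (mem_locSub e M).mp κ.2
      have h6 := hΘ κ p' q' hq' h5
      rw [h4, zero_mul] at h6
      have h7 : e (p' * q - p * q') = 0 := by
        rw [map_sub, map_mul, map_mul, ← h5, ← hκ]
        ring
      have h8 := (hψL0 _).mpr (hψP _ h7)
      rw [map_sub, map_mul, map_mul, ← h6, zero_mul, zero_sub, neg_eq_zero] at h8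
      rcases mul_eq_zero.mp h8 with h9 | h9
      · exact hψne _ hp ((hψL0 _).mp h9)
      · exact hψne _ hq' ((hψL0 _).mp h9)
    -- the values of the coefficients
    have hmem : ∀ l n, i ((F l).coeff n) ∈ locSub e M := by
      intro l n
      by_cases hn : n ∈ (F l).support
      · exact ⟨pK ((F l).coeff n), qK ((F l).coeff n), (hz4 l n hn).2.1, hpK _⟩
      · rw [notMem_support_iff.mp hn, map_zero]
        exact (locSub e M).zero_mem
    have hval : ∀ l, ∀ n ∈ (F l).support, ∃ c : k, c ≠ 0 ∧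
        Θ ⟨i ((F l).coeff n), hmem l n⟩ = algebraMap k L c := by
      intro l n hn
      set κ := (F l).coeff n with hκ
      obtain ⟨c₁, hc₁⟩ := hcon (A κ)
      obtain ⟨c₂, hc₂⟩ := hcon (E κ)
      have h1 : Θ ⟨i κ, hmem l n⟩ * Ψ (E κ) = Ψ (A κ) := by
        change Θ ⟨i κ, hmem l n⟩ * Θ ⟨(i.comp j) (E κ), hjO _⟩ = Θ ⟨(i.comp j) (A κ), hjO _⟩
        rw [← map_mul]
        congr 1
        apply Subtype.ext
        change i κ * i (j (E κ)) = i (j (A κ))
        rw [← map_mul, hA κ]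
      have h2 : Ψ (E κ) ≠ 0 := hunit ⟨(i.comp j) (E κ), hjO _⟩ (pK (j (E κ))) (qK (j (E κ)))
        (hz4 l n hn).2.2 (hpK _)
      have h3 : Θ ⟨i κ, hmem l n⟩ ≠ 0 := hunit _ (pK κ) (qK κ) (hz4 l n hn).1 (hpK _)
      have h4 : Θ ⟨i κ, hmem l n⟩ = algebraMap k L (c₁ / c₂) := by
        rw [map_div₀, hc₁, hc₂]
        exact eq_div_of_mul_eq h2 h1
      refine ⟨c₁ / c₂, ?_, h4⟩
      intro h5
      rw [h5, map_zero] at h4
      exact h3 h4
    -- the ratios are constant on the arc
    have hX0' : (MvPolynomial.X (Sum.inl l₀) : MvPolynomial (σ ⊕ ι) k) ∈ M := by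
      rw [hM, MvPolynomial.eval_X]
      exact hz3 _
    have hcl : ∀ l, ∃ c : k, ψL (MvPolynomial.X (Sum.inl l)) ^ w l₀ =
        algebraMap k L c * ψL (MvPolynomial.X (Sum.inl l₀)) ^ w l := by
      intro l
      set θ : K' := e (MvPolynomial.X (Sum.inl l)) ^ w l₀ / e (MvPolynomial.X (Sum.inl l₀)) ^ w l
        with hθ
      have h1 : θ * e (MvPolynomial.X (Sum.inl l₀) ^ w l) =
          e (MvPolynomial.X (Sum.inl l) ^ w l₀) := by
        rw [map_pow, map_pow, hθ]
        exact div_mul_cancel₀ _ (pow_ne_zero _ (hX0 _))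
      have h2 : θ ∈ locSub e M := ⟨_, _, M.pow_mem hX0' _, h1⟩
      have h3 := hΘ ⟨θ, h2⟩ _ _ (M.pow_mem hX0' (w l)) h1
      have h4 : ∃ c : k, algebraMap k L c = Θ ⟨θ, h2⟩ := by
        refine mem_range_of_isAlgebraic _ ?_
        have hch : ∀ n, ∃ c : k, (n ∈ (F l).support → c ≠ 0 ∧
            Θ ⟨i ((F l).coeff n), hmem l n⟩ = algebraMap k L c) := by
          intro n
          by_cases hn : n ∈ (F l).support
          · obtain ⟨c, hc⟩ := hval l n hn
            exact ⟨c, fun _ => hc⟩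
          · exact ⟨0, fun h => absurd h hn⟩
        choose c hc using hch
        refine ⟨∑ n ∈ (F l).support, C (c n) * X ^ n, ?_, ?_⟩
        · intro h5
          obtain ⟨n, hn⟩ := nonempty_support_iff.mpr (hF0 l)
          have h6 := congrArg (fun p => p.coeff n) h5
          simp only [finsetSum_coeff, coeff_C_mul, coeff_X_pow, mul_ite, mul_one, mul_zero,
            Finset.sum_ite_eq, hn, if_true, coeff_zero] at h6
          exact (hc n hn).1 h6
        · rw [map_sum]
          have h5 : ∑ n ∈ (F l).support, (⟨i ((F l).coeff n), hmem l n⟩ : locSub e M) *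
              ⟨θ, h2⟩ ^ n = 0 := by
            apply Subtype.ext
            rw [AddSubmonoidClass.coe_finsetSum]
            have h6 := hF l
            rw [eval₂_eq_sum, sum_def] at h6
            exact h6
          have h6 := congrArg Θ h5
          rw [map_sum, map_zero] at h6
          rw [← h6]
          refine Finset.sum_congr rfl fun n hn => ?_
          rw [map_mul, map_pow, aeval_C, aeval_X, map_mul, map_pow, (hc n hn).2]
      obtain ⟨c, hc⟩ := h4
      refine ⟨c, ?_⟩
      rw [hc, ← map_pow, ← map_pow, h3]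
    refine hl ?_
    have hx0 : ∀ l, (x l).coeff 0 = z (Sum.inl l) := by
      intro l
      have h1 := hψ0 (MvPolynomial.X (Sum.inl l))
      rw [hψx, MvPolynomial.eval_X, ← PowerSeries.coeff_zero_eq_constantCoeff_apply,
        Polynomial.coeff_coe] at h1
      exact h1
    have h1 := nonconst w hw l₀ hl₀ x hxd hx1 (fun l => by rw [hx0]; exact hz3 _) (by
      intro l
      obtain ⟨c, hc⟩ := hcl l
      refine ⟨c, ?_⟩
      apply Polynomial.coe_injective
      apply hinj
      have h2 := congrArg (fun v : L => (v : LaurentSeries k)) hc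
      rw [← hψLC] at h2
      simp only [← map_pow, ← map_mul] at h2
      rw [hψLv, hψLv] at h2
      have h3 : ψ (MvPolynomial.X (Sum.inl l) ^ w l₀) = ((x l ^ w l₀ : k[X]) : PowerSeries k) := by
        rw [map_pow, hψx, Polynomial.coe_pow]
      have h4 : ψ (MvPolynomial.C c * MvPolynomial.X (Sum.inl l₀) ^ w l) =
          ((C c * x l₀ ^ w l : k[X]) : PowerSeries k) := by
        rw [map_mul, map_pow, hψx, Polynomial.coe_mul, Polynomial.coe_pow, Polynomial.coe_C]
        congr 1
        exact ψ.commutes c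
      rw [h3, h4] at h2
      exact h2) l
    rw [h1, hx0]

end Pool.Agent.PGE
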