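import Pool.Agent.Helper45_PGE.Core

/-!
Module MAIN: the theorem on cyclic covers, from the modules FLD and COV.
-/

set_option autoImplicit false

open CategoryTheory AlgebraicGeometry Polynomial

universe u

namespace Pool.Agent.PGE

theorem main (hF : FLDStmt.{u}) (hC : COVStmt.{u}) : MAINStmt.{u} := by
  intro k _ _ _ X f _ _ σ ι τ _ _ _ w m a d g h x y hg hh hma hcl hy0 hP hnum
  have hArc := arcL_of_num hF w m a d g h hg hh hma hnum
  refine hC k X f ?_
  intro Z hZ hZ1
  obtain ⟨z, hz⟩ : ∃ z, z ∉ Z := (Set.ne_univ_iff_exists_notMem Z).mp hZ1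
  let V : X.Opens := ⟨Zᶜ, hZ.isOpen_compl⟩
  obtain ⟨U, hU, hzU, hUV⟩ := exists_isAffineOpen_mem_and_subset (x := z) (U := V) hz
  have hne : Nonempty U := ⟨⟨z, hzU⟩⟩
  have hfr : IsFractionRing Γ(X, U) X.functionField :=
    functionField_isFractionRing_of_isAffineOpen X U hU
  let γ : k →+* Γ(X, U) := ((Scheme.ΓSpecIso (.of k)).inv ≫ f.appTop ≫
    X.presheaf.map (homOfLE (le_top : U ≤ ⊤)).op).hom
  have hγ : γ.FiniteType := by
    have h1 : (f.appLE ⊤ U le_top).hom.FiniteType :=
      f.finiteType_appLE (isAffineOpen_top _) hU le_top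
    have h2 : γ = (f.appLE ⊤ U le_top).hom.comp ((Scheme.ΓSpecIso (.of k)).inv).hom := rfl
    rw [h2]
    refine RingHom.FiniteType.comp h1 (RingHom.FiniteType.of_surjective _ ?_)
    exact (ConcreteCategory.bijective_of_isIso ((Scheme.ΓSpecIso (.of k)).inv)).2
  have hj : Function.Injective (X.germToFunctionField U).hom :=
    Scheme.germToFunctionField_injective X U
  have hjφ : ∀ c, (X.germToFunctionField U).hom (γ c) = PGH.constants k f c := by
    intro c
    have h1 : X.presheaf.map (homOfLE (le_top : U ≤ ⊤)).op ≫ X.germToFunctionField U =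
        X.presheaf.germ ⊤ (genericPoint X) trivial := by
      exact X.presheaf.germ_res _ _ _
    change ((Scheme.ΓSpecIso (.of k)).inv ≫ f.appTop ≫
      X.presheaf.map (homOfLE (le_top : U ≤ ⊤)).op ≫ X.germToFunctionField U).hom c = _
    rw [h1]
    rfl
  obtain ⟨L, iL, aL, hgood, Ψ, hΨ, hΨt⟩ := core (PGH.constants k f) γ hγ
    (X.germToFunctionField U).hom hj hjφ (by
      intro κ
      obtain ⟨p, q, hq, hpq⟩ := IsFractionRing.div_surjective (A := Γ(X, U)) κ
      have hq' : (X.germToFunctionField U).hom q ≠ 0 := by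
        intro h1
        refine nonZeroDivisors.ne_zero hq ?_
        apply hj
        rw [h1, map_zero]
      refine ⟨p, q, hq', ?_⟩
      rw [← hpq]
      exact div_mul_cancel₀ _ hq')
    m g h x y hArc hcl hy0 hP
  refine ⟨U, hU, ⟨z, hzU⟩, ?_, L, iL, aL, hgood, Ψ, ?_, hΨt⟩
  · rw [Set.disjoint_left]
    intro v hv hv'
    exact hUV hv hv'
  · intro c
    exact hΨ c

end Pool.Agent.PGE
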