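import Mathlib

/-!
# Subvarieties of weighted projective spaces defined by cyclic equations
-/

set_option autoImplicit false

namespace Pool.Agent.PGE

/-- The ideal of the equations `h j (x) = 0` and `(y i) ^ (m i) = g i (x)` in the polynomial ring
in the variables `x l` (`l : σ`) and `y i` (`i : ι`). -/
noncomputable def cyclicIdeal {k σ ι τ : Type*} [Field k] (m : ι → ℕ)
    (g : ι → MvPolynomial σ k) (h : τ → MvPolynomial σ k) : Ideal (MvPolynomial (σ ⊕ ι) k) :=
  Ideal.span (Set.range (fun j => MvPolynomial.rename (Sum.inl : σ → σ ⊕ ι) (h j)) ∪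
    Set.range (fun i => MvPolynomial.X (Sum.inr i) ^ m i -
      MvPolynomial.rename (Sum.inl : σ → σ ⊕ ι) (g i)))

/-- Let `K` be an extension of `k` (by `c`) and `z : s → K` the homogeneous coordinates of a point
of the weighted projective space with weights `v : s → ℕ`. The values `p(z) / q(z)` at this point
of the fractions of weighted homogeneous polynomials `p`, `q` over `k` of the same degree, with
`q(z) ≠ 0`. If the point is the generic point of a closed subvariety `V`, this is the function
field of `V`. -/
def homFrac {k K s : Type*} [Field k] [Field K] (c : k →+* K) (v : s → ℕ) (z : s → K) : Set K :=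
  {κ | ∃ (N : ℕ) (p q : MvPolynomial s k), p.IsWeightedHomogeneous v N ∧
    q.IsWeightedHomogeneous v N ∧ q.eval₂ c z ≠ 0 ∧ κ = p.eval₂ c z / q.eval₂ c z}

end Pool.Agent.PGE
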