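import Pool.Agent.Helper45_PGE.CoreH
import Pool.Agent.Helper45_PGE.RatFun

/-!
Module MAIN, projective version: varieties dominated by weighted complete intersections with
cyclic equations.
-/

set_option autoImplicit false

open CategoryTheory AlgebraicGeometry Polynomial

universe u v₁ v₂ v₃ v₄

namespace Pool.Agent.PGE

/-- MAINH: the theorem for weighted complete intersections. -/
def MAINHStmt : Prop := ∀ (k : Type u) [Field k] [IsAlgClosed k] [CharZero k] (X : Scheme.{u})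
  (f : X ⟶ Spec (.of k)) [IsIntegral X] [IsProper f] (σ : Type v₁) (ι : Type v₂) (τ : Type v₃)
  [Fintype σ] [Fintype ι] [Fintype τ] (w : σ → ℕ) (m a : ι → ℕ) (d : τ → ℕ)
  (g : ι → MvPolynomial σ k) (h : τ → MvPolynomial σ k) (K : Type v₄) [Field K]
  (θ : X.functionField →+* K) (x : σ → K) (y : ι → K),
  Finset.univ.gcd w = 1 →
  (∀ i, 2 ≤ m i ∧ 1 ≤ a i) →
  (∀ i, (g i).IsWeightedHomogeneous w (m i * a i)) →
  (∀ j, (h j).IsWeightedHomogeneous w (d j)) →
  (∀ l, x l ≠ 0) → (∀ i, y i ≠ 0) →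
  RingHom.ker (MvPolynomial.eval₂Hom (θ.comp (PGH.constants k f)) (Sum.elim x y)) ∈
    (cyclicIdeal m g h).minimalPrimes →
  (∀ κ, θ κ ∈ homFrac (θ.comp (PGH.constants k f)) (Sum.elim w a) (Sum.elim x y)) →
  (∀ κ ∈ homFrac (θ.comp (PGH.constants k f)) (Sum.elim w a) (Sum.elim x y),
    ∃ F : X.functionField[X], F ≠ 0 ∧ F.eval₂ θ κ = 0) →
  ((∑ i, m i * a i + ∑ j, d j ≤ ∑ l, w l + ∑ i, a i ∧
      ((∃ i, 3 ∣ m i ∨ 4 ∣ m i ∨ (2 ∣ m i ∧ 2 ≤ a i)) ∨ ∃ i i', i ≠ i' ∧ 2 ∣ m i ∧ 2 ∣ m i')) ∨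
    (∑ i, m i * a i + ∑ j, d j < ∑ l, w l + ∑ i, a i ∧ Nonempty ι)) →
  ¬ PGH.IsPGH k f

lemma wtd_le {k σ : Type*} [Field k] (w : σ → ℕ) (p : MvPolynomial σ k) (n : ℕ)
    (hp : p.IsWeightedHomogeneous w n) : MvPolynomial.weightedTotalDegree w p ≤ n := by
  unfold MvPolynomial.weightedTotalDegree
  refine Finset.sup_le fun d hd => ?_
  exact (hp (MvPolynomial.mem_support_iff.mp hd)).le

theorem mainH (hF : FLDStmt.{u}) (hC : COVStmt.{u}) : MAINHStmt.{u, v₁, v₂, v₃, v₄} := by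
  intro k _ _ _ X f _ _ σ ι τ _ _ _ w m a d g h K _ θ x y hw hma hg hh hx hy hP hθ hfin hnum
  obtain ⟨l₀, hl₀⟩ : ∃ l₀, 0 < w l₀ := by
    by_contra hno
    push Not at hno
    have h1 : Finset.univ.gcd w = 0 := by
      rw [Finset.gcd_eq_zero_iff]
      intro l _
      have := hno l
      omega
    rw [h1] at hw
    exact zero_ne_one hw
  have hArc := arcH_of_num hF w l₀ hl₀ m a d g h (fun i => wtd_le w _ _ (hg i))
    (fun j => wtd_le w _ _ (hh j)) hma hnum
  refine hC k X f ?_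
  intro Z hZ hZ1
  obtain ⟨z, hz⟩ : ∃ z, z ∉ Z := (Set.ne_univ_iff_exists_notMem Z).mp hZ1
  let V : X.Opens := ⟨Zᶜ, hZ.isOpen_compl⟩
  obtain ⟨U, hU, hzU, hUV⟩ := exists_isAffineOpen_mem_and_subset (x := z) (U := V) hz
  have hne : Nonempty U := ⟨⟨z, hzU⟩⟩
  have hfr : IsFractionRing Γ(X, U) X.functionField :=
    functionField_isFractionRing_of_isAffineOpen X U hU
  let γ : k →+* Γ(X, U) := ((Scheme.ΓSpecIso (.of k)).inv ≫ f.appTop ≫
    X.presheaf.map (homOfLE (le_top : U ≤ ⊤)).op).hom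
  have hγ : γ.FiniteType := by
    have h1 : (f.appLE ⊤ U le_top).hom.FiniteType :=
      f.finiteType_appLE (isAffineOpen_top _) hU le_top
    have h2 : γ = (f.appLE ⊤ U le_top).hom.comp ((Scheme.ΓSpecIso (.of k)).inv).hom := rfl
    rw [h2]
    refine RingHom.FiniteType.comp h1 (RingHom.FiniteType.of_surjective _ ?_)
    exact (ConcreteCategory.bijective_of_isIso ((Scheme.ΓSpecIso (.of k)).inv)).2
  have hj : Function.Injective (X.germToFunctionField U).hom :=
    Scheme.germToFunctionField_injective X U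
  have hjφ : ∀ c, (X.germToFunctionField U).hom (γ c) = PGH.constants k f c := by
    intro c
    have h1 : X.presheaf.map (homOfLE (le_top : U ≤ ⊤)).op ≫ X.germToFunctionField U =
        X.presheaf.germ ⊤ (genericPoint X) trivial := by
      exact X.presheaf.germ_res _ _ _
    change ((Scheme.ΓSpecIso (.of k)).inv ≫ f.appTop ≫
      X.presheaf.map (homOfLE (le_top : U ≤ ⊤)).op ≫ X.germToFunctionField U).hom c = _
    rw [h1]
    rfl
  set e : MvPolynomial (σ ⊕ ι) k →+* K :=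
    MvPolynomial.eval₂Hom (θ.comp (PGH.constants k f)) (Sum.elim x y) with he
  have heX : ∀ s, e (MvPolynomial.X s) = Sum.elim x y s := fun s => by
    rw [he]; exact MvPolynomial.eval₂Hom_X' _ _ _
  obtain ⟨L, iL, aL, hgood, Ψ, hΨ, hΨt⟩ := coreH (PGH.constants k f) γ hγ
    (X.germToFunctionField U).hom hjφ (by
      intro κ
      obtain ⟨p, q, hq, hpq⟩ := IsFractionRing.div_surjective (A := Γ(X, U)) κ
      have hq' : (X.germToFunctionField U).hom q ≠ 0 := by
        intro h1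
        refine nonZeroDivisors.ne_zero hq ?_
        apply hj
        rw [h1, map_zero]
      refine ⟨p, q, hq', ?_⟩
      rw [← hpq]
      exact div_mul_cancel₀ _ hq')
    θ w hw l₀ hl₀ m g h e (by
      intro c
      rw [he]
      exact MvPolynomial.eval₂Hom_C _ _ _) hArc (by
      intro κ
      obtain ⟨n, p, q, -, -, h2, h1⟩ := hθ κ
      refine ⟨p, q, h2, ?_⟩
      rw [h1]
      exact div_mul_cancel₀ _ h2) (by
      intro l
      have h1 : e (MvPolynomial.X (Sum.inl l)) ^ w l₀ /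
          e (MvPolynomial.X (Sum.inl l₀)) ^ w l ∈
          homFrac (θ.comp (PGH.constants k f)) (Sum.elim w a) (Sum.elim x y) := by
        refine ⟨w l * w l₀, MvPolynomial.X (Sum.inl l) ^ w l₀, MvPolynomial.X (Sum.inl l₀) ^ w l,
          ?_, ?_, ?_, ?_⟩
        · have h2 := (MvPolynomial.isWeightedHomogeneous_X k (Sum.elim w a)
            (Sum.inl l : σ ⊕ ι)).pow (w l₀)
          rw [smul_eq_mul, mul_comm] at h2
          exact h2
        · have h2 := (MvPolynomial.isWeightedHomogeneous_X k (Sum.elim w a)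
            (Sum.inl l₀ : σ ⊕ ι)).pow (w l)
          rw [smul_eq_mul] at h2
          exact h2
        · change e _ ≠ 0
          rw [map_pow, heX]
          exact pow_ne_zero _ (hx l₀)
        · change _ = e _ / e _
          rw [map_pow, map_pow]
      exact hfin _ h1) (by
      intro s
      rw [heX]
      rcases s with s | s
      · exact hx s
      · exact hy s)
    hP
  refine ⟨U, hU, ⟨z, hzU⟩, ?_, L, iL, aL, hgood, Ψ, ?_, hΨt⟩
  · rw [Set.disjoint_left]
    intro v hv hv'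
    exact hUV hv hv'
  · intro c
    exact hΨ c

end Pool.Agent.PGE
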