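import Pool.Agent.Helper45_PGE.Pat

/-!
Module PAT, second part: the numerical patterns.
-/

set_option autoImplicit false

open Polynomial

universe u

namespace Pool.Agent.PGE

section

variable {k : Type u} [Field k] [IsAlgClosed k] {σ ι τ : Type*} [Fintype σ] [Fintype ι]
  [Fintype τ]

theorem arcL_single (w : σ → ℕ) (m a : ι → ℕ) (d : τ → ℕ)
    (g : ι → MvPolynomial σ k) (h : τ → MvPolynomial σ k)
    (hg : ∀ i, MvPolynomial.weightedTotalDegree w (g i) ≤ m i * a i)
    (hh : ∀ j, MvPolynomial.weightedTotalDegree w (h j) ≤ d j) (hm : ∀ i, m i ≠ 0)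
    (i₀ : ι) (n r₀ : ℕ) (c₀ : ℕ → ℕ) (hr : r₀ ≤ a i₀)
    (hsum : ∑ q ∈ Finset.range n, c₀ q = m i₀ * r₀) (hc₀ : ∀ q < n, c₀ q ≠ 0)
    (hnum : ∑ i, m i * a i + ∑ j, d j + r₀ < ∑ l, w l + ∑ i, a i + n)
    (hfld : ∀ β : ℕ → k, ∃ (L : IntermediateField k (LaurentSeries k))
      (U : PowerSeries k), ((PowerSeries.X : PowerSeries k) : LaurentSeries k) ∈ L ∧
      Good k L ∧ (U : LaurentSeries k) ∈ L ∧ PowerSeries.constantCoeff U = 1 ∧
        U ^ m i₀ = ∏ q ∈ Finset.range n, lin (β q) ^ c₀ q) :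
    ArcL m g h := by
  classical
  refine arcL w m a (fun i => if i = i₀ then n else 0) (fun i => if i = i₀ then r₀ else 0)
    (fun _ q => c₀ q) d g h hg hh ?_ hm ?_ ?_ ?_ ?_
  · intro i
    by_cases hi : i = i₀
    · subst hi
      rw [if_pos rfl]
      exact hr
    · rw [if_neg hi]
      exact Nat.zero_le _
  · intro i
    by_cases hi : i = i₀
    · subst hi
      rw [if_pos rfl, if_pos rfl]
      exact hsum
    · rw [if_neg hi, if_neg hi]
      simp
  · intro i q hq
    by_cases hi : i = i₀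
    · rw [if_pos hi] at hq
      exact hc₀ q hq
    · rw [if_neg hi] at hq
      omega
  · have h1 : ∑ i, (if i = i₀ then r₀ else 0) = r₀ := by simp
    have h2 : ∑ i, (if i = i₀ then n else 0) = n := by simp
    rw [h1, h2]
    exact hnum
  · intro β
    obtain ⟨L, U, hX, hG, hU, hU1, hU2⟩ := hfld (β i₀)
    refine ⟨L, fun i => if i = i₀ then U else 1, hX, hG, ?_⟩
    intro i
    beta_reduce
    by_cases hi : i = i₀
    · subst hi
      rw [if_pos rfl, if_pos rfl]
      exact ⟨hU, hU1, hU2⟩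
    · rw [if_neg hi, if_neg hi]
      refine ⟨?_, ?_, ?_⟩
      · rw [PowerSeries.coe_one]
        exact L.one_mem
      · exact map_one _
      · simp

theorem arcL_pair (w : σ → ℕ) (m a : ι → ℕ) (d : τ → ℕ)
    (g : ι → MvPolynomial σ k) (h : τ → MvPolynomial σ k)
    (hg : ∀ i, MvPolynomial.weightedTotalDegree w (g i) ≤ m i * a i)
    (hh : ∀ j, MvPolynomial.weightedTotalDegree w (h j) ≤ d j) (hm : ∀ i, m i ≠ 0)
    (ha : ∀ i, 1 ≤ a i)
    (i₀ i₁ : ι) (hne : i₀ ≠ i₁) (m₀ m₁ : ℕ) (hm₀ : m i₀ = 2 * m₀) (hm₁ : m i₁ = 2 * m₁)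
    (hnum : ∑ i, m i * a i + ∑ j, d j < ∑ l, w l + ∑ i, a i + 2)
    (hfld : ∀ b₁ b₂ b₃ b₄ : k, ∃ (L : IntermediateField k (LaurentSeries k)) (U V : PowerSeries k),
    ((PowerSeries.X : PowerSeries k) : LaurentSeries k) ∈ L ∧ (U : LaurentSeries k) ∈ L ∧
    (V : LaurentSeries k) ∈ L ∧ PowerSeries.constantCoeff U = 1 ∧
    PowerSeries.constantCoeff V = 1 ∧ U ^ 2 = lin b₁ * lin b₂ ∧ V ^ 2 = lin b₃ * lin b₄ ∧
    Good k L) :
    ArcL m g h := by
  classical
  have hm' := hm i₀
  have hm'' := hm i₁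
  refine arcL w m a (fun i => if i = i₀ then 2 else if i = i₁ then 2 else 0)
    (fun i => if i = i₀ then 1 else if i = i₁ then 1 else 0)
    (fun i _ => m i / 2) d g h hg hh ?_ hm ?_ ?_ ?_ ?_
  · intro i
    have := ha i
    split_ifs <;> omega
  · intro i
    by_cases hi : i = i₀
    · subst hi
      rw [if_pos rfl, if_pos rfl, Finset.sum_const, Finset.card_range]
      simp only [smul_eq_mul]
      omega
    · rw [if_neg hi, if_neg hi]
      by_cases hi' : i = i₁
      · subst hi'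
        rw [if_pos rfl, if_pos rfl, Finset.sum_const, Finset.card_range]
        simp only [smul_eq_mul]
        omega
      · rw [if_neg hi', if_neg hi']
        simp
  · intro i q hq
    by_cases hi : i = i₀
    · subst hi
      omega
    · rw [if_neg hi] at hq
      by_cases hi' : i = i₁
      · subst hi'
        omega
      · rw [if_neg hi'] at hq
        omega
  · have h1 : ∀ c : ℕ, ∑ i, (if i = i₀ then c else if i = i₁ then c else 0) = c + c := by
      intro c
      have h2 : ∀ i, (if i = i₀ then c else if i = i₁ then c else 0) =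
          (if i = i₀ then c else 0) + (if i = i₁ then c else 0) := by
        intro i
        by_cases hi : i = i₀
        · subst hi
          rw [if_pos rfl, if_pos rfl, if_neg hne, add_zero]
        · rw [if_neg hi, if_neg hi, zero_add]
      rw [Finset.sum_congr rfl fun i _ => h2 i, Finset.sum_add_distrib]
      simp
    rw [h1, h1]
    omega
  · intro β
    obtain ⟨L, U, V, hX, hU, hV, hU1, hV1, hU2, hV2, hG⟩ := hfld (β i₀ 0) (β i₀ 1) (β i₁ 0) (β i₁ 1)
    refine ⟨L, fun i => if i = i₀ then U else if i = i₁ then V else 1, hX, hG, ?_⟩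
    intro i
    beta_reduce
    by_cases hi : i = i₀
    · subst hi
      rw [if_pos rfl, if_pos rfl]
      refine ⟨hU, hU1, ?_⟩
      rw [Finset.prod_range_succ, Finset.prod_range_succ, Finset.prod_range_zero, one_mul,
        ← mul_pow, ← hU2, hm₀, Nat.mul_div_cancel_left _ (by norm_num), pow_mul]
    · rw [if_neg hi, if_neg hi]
      by_cases hi' : i = i₁
      · subst hi'
        rw [if_pos rfl, if_pos rfl]
        refine ⟨hV, hV1, ?_⟩
        rw [Finset.prod_range_succ, Finset.prod_range_succ, Finset.prod_range_zero, one_mul,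
          ← mul_pow, ← hV2, hm₁, Nat.mul_div_cancel_left _ (by norm_num), pow_mul]
      · rw [if_neg hi', if_neg hi']
        refine ⟨?_, ?_, ?_⟩
        · rw [PowerSeries.coe_one]
          exact L.one_mem
        · exact map_one _
        · simp

/-- the numerical condition of the theorem gives arcs of genus at most one. -/
theorem arcL_of_num [CharZero k] (hF : FLDStmt.{u}) (w : σ → ℕ) (m a : ι → ℕ) (d : τ → ℕ)
    (g : ι → MvPolynomial σ k) (h : τ → MvPolynomial σ k)
    (hg : ∀ i, MvPolynomial.weightedTotalDegree w (g i) ≤ m i * a i)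
    (hh : ∀ j, MvPolynomial.weightedTotalDegree w (h j) ≤ d j)
    (hma : ∀ i, 2 ≤ m i ∧ 1 ≤ a i)
    (hnum : (∑ i, m i * a i + ∑ j, d j ≤ 1 + ∑ l, w l + ∑ i, a i ∧
      ((∃ i, 3 ∣ m i ∨ 4 ∣ m i ∨ (2 ∣ m i ∧ 2 ≤ a i)) ∨ ∃ i i', i ≠ i' ∧ 2 ∣ m i ∧ 2 ∣ m i')) ∨
    (∑ i, m i * a i + ∑ j, d j ≤ ∑ l, w l + ∑ i, a i ∧ Nonempty ι)) :
    ArcL m g h := by
  classical
  have hm : ∀ i, m i ≠ 0 := fun i => by have := (hma i).1; omega
  obtain ⟨F3, F4, F2, F22, F0⟩ := hF k
  rcases hnum with ⟨hnum, ⟨i₀, hi | hi | ⟨hi, hi'⟩⟩ | ⟨i₀, i₁, hne, ⟨m₀, hm₀⟩, ⟨m₁, hm₁⟩⟩⟩ |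
    ⟨hnum, ⟨i₀⟩⟩
  · obtain ⟨m', hm'⟩ := hi
    have h0 := hm i₀
    refine arcL_single w m a d g h hg hh hm i₀ 3 1 (fun _ => m') (hma i₀).2 ?_ ?_ (by omega) ?_
    · simp
      omega
    · intro q _
      omega
    · intro β
      obtain ⟨L, U, hX, hU, hU1, hU2, hG⟩ := F3 (β 0) (β 1) (β 2)
      refine ⟨L, U, hX, hG, hU, hU1, ?_⟩
      rw [hm', pow_mul, hU2, Finset.prod_range_succ, Finset.prod_range_succ,
        Finset.prod_range_succ, Finset.prod_range_zero]
      ring
  · obtain ⟨m', hm'⟩ := hi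
    have h0 := hm i₀
    refine arcL_single w m a d g h hg hh hm i₀ 3 1 (fun q => if q = 2 then 2 * m' else m')
      (hma i₀).2 ?_ ?_ (by omega) ?_
    · simp [Finset.sum_range_succ]
      omega
    · intro q _
      split_ifs <;> omega
    · intro β
      obtain ⟨L, U, hX, hU, hU1, hU2, hG⟩ := F4 (β 0) (β 1) (β 2)
      refine ⟨L, U, hX, hG, hU, hU1, ?_⟩
      rw [hm', pow_mul, hU2, Finset.prod_range_succ, Finset.prod_range_succ,
        Finset.prod_range_succ, Finset.prod_range_zero]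
      norm_num
      ring
  · obtain ⟨m', hm'⟩ := hi
    have h0 := hm i₀
    refine arcL_single w m a d g h hg hh hm i₀ 4 2 (fun _ => m') hi' ?_ ?_ (by omega) ?_
    · simp
      omega
    · intro q _
      omega
    · intro β
      obtain ⟨L, U, hX, hU, hU1, hU2, hG⟩ := F2 (β 0) (β 1) (β 2) (β 3)
      refine ⟨L, U, hX, hG, hU, hU1, ?_⟩
      rw [hm', pow_mul, hU2, Finset.prod_range_succ, Finset.prod_range_succ,
        Finset.prod_range_succ, Finset.prod_range_succ, Finset.prod_range_zero]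
      ring
  · exact arcL_pair w m a d g h hg hh hm (fun i => (hma i).2) i₀ i₁ hne m₀ m₁ hm₀ hm₁ (by omega) F22
  · have h0 := (hma i₀).1
    refine arcL_single w m a d g h hg hh hm i₀ 2 1 (fun q => if q = 0 then 1 else m i₀ - 1)
      (hma i₀).2 ?_ ?_ (by omega) ?_
    · simp [Finset.sum_range_succ]
      omega
    · intro q _
      split_ifs <;> omega
    · intro β
      obtain ⟨L, U, hX, hU, hU1, hU2, hG⟩ := F0 (m i₀) (β 0) (β 1) (hm i₀)
      refine ⟨L, U, hX, hG, hU, hU1, ?_⟩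
      rw [hU2, Finset.prod_range_succ, Finset.prod_range_succ, Finset.prod_range_zero]
      norm_num

end

end Pool.Agent.PGE
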