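import Pool.Agent.Helper45_PGE.Pat

/-!
Module PATH: arcs on the cyclic cover with function field of genus at most one, homogeneous
version.
-/

set_option autoImplicit false

open Polynomial

universe u

namespace Pool.Agent.PGE

section

variable {k : Type u} [Field k] [IsAlgClosed k] {σ ι τ : Type*} [Fintype σ] [Fintype ι]
  [Fintype τ]

/-- the arcs together with their function field, for the coordinate `l₀`. -/
def ArcH (w : σ → ℕ) (l₀ : σ) (m : ι → ℕ) (g : ι → MvPolynomial σ k) (h : τ → MvPolynomial σ k) : Prop :=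
  ∀ (x₀ : σ → k) (y₀ : ι → k), (∀ j, MvPolynomial.eval x₀ (h j) = 0) →
    (∀ i, y₀ i ≠ 0 ∧ y₀ i ^ m i = MvPolynomial.eval x₀ (g i)) →
    ∃ (L : IntermediateField k (LaurentSeries k))
      (ψ : MvPolynomial (σ ⊕ ι) k →ₐ[k] PowerSeries k), Good k L ∧
      (∀ p, (ψ p : LaurentSeries k) ∈ L) ∧
      (∀ p, PowerSeries.constantCoeff (ψ p) = MvPolynomial.eval (Sum.elim x₀ y₀) p) ∧
      (∀ j, ψ (MvPolynomial.rename Sum.inl (h j)) = 0) ∧
      (∀ i, ψ (MvPolynomial.X (Sum.inr i) ^ m i - MvPolynomial.rename Sum.inl (g i)) = 0) ∧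
      ∃ x : σ → k[X], (∀ l, (x l).natDegree ≤ w l) ∧ (x l₀).coeff 1 = 0 ∧
        (∀ l, ψ (MvPolynomial.X (Sum.inl l)) = (x l : PowerSeries k)) ∧ ∃ l, x l ≠ C (x₀ l)

theorem arcH (w : σ → ℕ) (l₀ : σ) (hl₀ : 0 < w l₀) (m a e r : ι → ℕ) (cc : ι → ℕ → ℕ) (d : τ → ℕ)
    (g : ι → MvPolynomial σ k) (h : τ → MvPolynomial σ k)
    (hg : ∀ i, MvPolynomial.weightedTotalDegree w (g i) ≤ m i * a i)
    (hh : ∀ j, MvPolynomial.weightedTotalDegree w (h j) ≤ d j)
    (hr : ∀ i, r i ≤ a i) (hm : ∀ i, m i ≠ 0)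
    (hcr : ∀ i, ∑ q ∈ Finset.range (e i), cc i q = m i * r i)
    (hc : ∀ i q, q < e i → cc i q ≠ 0)
    (hnum : ∑ i, m i * a i + ∑ j, d j + ∑ i, r i + 1 < ∑ l, w l + ∑ i, a i + ∑ i, e i)
    (hfld : ∀ β : ι → ℕ → k, ∃ (L : IntermediateField k (LaurentSeries k))
      (U : ι → PowerSeries k), ((PowerSeries.X : PowerSeries k) : LaurentSeries k) ∈ L ∧
      Good k L ∧ ∀ i, (U i : LaurentSeries k) ∈ L ∧ PowerSeries.constantCoeff (U i) = 1 ∧
        U i ^ m i = ∏ q ∈ Finset.range (e i), lin (β i q) ^ cc i q) :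
    ArcH w l₀ m g h := by
  classical
  intro x₀ y₀ hx hy
  have hb : ∀ i, m i * (a i - r i) + ∑ q : Fin (e i), cc i q.1 = m i * a i := by
    intro i
    rw [Fin.sum_univ_eq_sum_range (fun q => cc i q) (e i), hcr i, ← mul_add,
      Nat.sub_add_cancel (hr i)]
  have hsum : ∑ i, (a i - r i + e i) + ∑ i, r i = ∑ i, a i + ∑ i, e i := by
    rw [Finset.sum_add_distrib, add_right_comm, ← Finset.sum_add_distrib]
    congr 1
    exact Finset.sum_congr rfl fun i _ => Nat.sub_add_cancel (hr i)
  obtain ⟨x, z, β, hxd, hx1, hx0, hz0, hH, hG, l, hl⟩ := arc1 w m a (fun i => a i - r i) e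
    (fun i q => cc i q.1) d g h hg hh hb hm (fun i q => hc i q.1 q.2) (by omega) l₀ hl₀ x₀ hx
    (fun i => by rw [← (hy i).2]; exact pow_ne_zero _ (hy i).1)
  obtain ⟨L, U, hXL, hgood, hU⟩ := hfld (fun i q => if h : q < e i then β i ⟨q, h⟩ else 0)
  have hC : ∀ c : k, ((PowerSeries.C c : PowerSeries k) : LaurentSeries k) ∈ L := by
    intro c
    have h1 := L.algebraMap_mem c
    have h2 : ((PowerSeries.C c : PowerSeries k) : LaurentSeries k) =
        algebraMap k (LaurentSeries k) c := by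
      rw [PowerSeries.coe_C, LaurentSeries.algebraMap_apply]
    rw [h2]
    exact h1
  have hpoly : ∀ p : k[X], (((p : k[X]) : PowerSeries k) : LaurentSeries k) ∈ L := by
    intro p
    induction p using Polynomial.induction_on' with
    | add p q hp hq =>
      rw [Polynomial.coe_add, PowerSeries.coe_add]
      exact L.add_mem hp hq
    | monomial n c =>
      rw [← C_mul_X_pow_eq_monomial, Polynomial.coe_mul, Polynomial.coe_C, Polynomial.coe_pow,
        Polynomial.coe_X, PowerSeries.coe_mul, PowerSeries.coe_pow]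
      exact L.mul_mem (hC c) (L.pow_mem hXL n)
  let η : σ ⊕ ι → PowerSeries k := Sum.elim (fun l => (x l : PowerSeries k))
    (fun i => PowerSeries.C (y₀ i) * (z i : PowerSeries k) * U i)
  have hη : ∀ s, (η s : LaurentSeries k) ∈ L := by
    rintro (l | i)
    · exact hpoly (x l)
    · change (((PowerSeries.C (y₀ i) * (z i : PowerSeries k) * U i : PowerSeries k)) :
        LaurentSeries k) ∈ L
      rw [PowerSeries.coe_mul, PowerSeries.coe_mul]
      exact L.mul_mem (L.mul_mem (hC _) (hpoly _)) (hU i).1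
  have hη0 : ∀ s, PowerSeries.constantCoeff (η s) = Sum.elim x₀ y₀ s := by
    rintro (l | i)
    · change PowerSeries.constantCoeff ((x l : k[X]) : PowerSeries k) = x₀ l
      rw [← PowerSeries.coeff_zero_eq_constantCoeff_apply, Polynomial.coeff_coe, hx0]
    · change PowerSeries.constantCoeff (PowerSeries.C (y₀ i) * (z i : PowerSeries k) * U i) = y₀ i
      rw [map_mul, map_mul, (hU i).2.1, PowerSeries.constantCoeff_C,
        ← PowerSeries.coeff_zero_eq_constantCoeff_apply, Polynomial.coeff_coe, hz0]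
      ring
  have hren : ∀ p : MvPolynomial σ k,
      MvPolynomial.aeval η (MvPolynomial.rename (Sum.inl : σ → σ ⊕ ι) p) =
        ((MvPolynomial.aeval x p : k[X]) : PowerSeries k) := by
    intro p
    rw [MvPolynomial.aeval_rename]
    have h1 : (Polynomial.coeToPowerSeries.algHom k).comp
        (MvPolynomial.aeval x : MvPolynomial σ k →ₐ[k] k[X]) =
        MvPolynomial.aeval (η ∘ Sum.inl) := by
      apply MvPolynomial.algHom_ext
      intro l
      rw [AlgHom.comp_apply, MvPolynomial.aeval_X, MvPolynomial.aeval_X,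
        Polynomial.coeToPowerSeries.algHom_apply]
      rw [Algebra.algebraMap_self, PowerSeries.map_id]
      rfl
    rw [← h1, AlgHom.comp_apply, Polynomial.coeToPowerSeries.algHom_apply,
      Algebra.algebraMap_self, PowerSeries.map_id]
    rfl
  refine ⟨L, MvPolynomial.aeval η, hgood, ?_, ?_, ?_, ?_, x, hxd, hx1, ?_, l, hl⟩
  · intro p
    induction p using MvPolynomial.induction_on with
    | C c =>
      rw [MvPolynomial.aeval_C]
      exact hC c
    | add p q hp hq =>
      rw [map_add, PowerSeries.coe_add]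
      exact L.add_mem hp hq
    | mul_X p s hp =>
      rw [map_mul, MvPolynomial.aeval_X, PowerSeries.coe_mul]
      exact L.mul_mem hp (hη s)
  · intro p
    induction p using MvPolynomial.induction_on with
    | C c =>
      rw [MvPolynomial.aeval_C, MvPolynomial.eval_C]
      exact PowerSeries.constantCoeff_C c
    | add p q hp hq => rw [map_add, map_add, hp, hq, map_add]
    | mul_X p s hp =>
      rw [map_mul, map_mul, hp, MvPolynomial.aeval_X, hη0 s, map_mul, MvPolynomial.eval_X]
  · intro j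
    rw [hren, hH j, Polynomial.coe_zero]
  · intro i
    rw [map_sub, hren, hG i, map_pow, MvPolynomial.aeval_X, sub_eq_zero]
    change (PowerSeries.C (y₀ i) * (z i : PowerSeries k) * U i) ^ m i = _
    rw [mul_pow, mul_pow, (hU i).2.2, Polynomial.coe_mul, Polynomial.coe_mul, Polynomial.coe_C,
      Polynomial.coe_pow, ← map_pow, (hy i).2]
    congr 1
    rw [← fin_prod_eq (e i) (β i) (cc i)]
    have h3 : ∀ (s : Finset (Fin (e i))) (f : Fin (e i) → k[X]),
        ((∏ q ∈ s, f q : k[X]) : PowerSeries k) = ∏ q ∈ s, ((f q : k[X]) : PowerSeries k) := by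
      intro s f
      exact map_prod (Polynomial.coeToPowerSeries.ringHom (R := k)) f s
    rw [h3]
    refine Finset.prod_congr rfl fun q _ => ?_
    rw [Polynomial.coe_pow, toPS_lin]
  · intro l
    rw [MvPolynomial.aeval_X]
    rfl

end

end Pool.Agent.PGE
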